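import Pool.Agent.H10.FG.QGal
import Pool.Agent.H88.AB.Quad

/-!
# FG Base: quadratic base fields inside quartic fields

`base_field`: a subgroup `U` of index two which contains the stabiliser of an embedding gives a quadratic subfield `F`
of `K`; the elements which fix its embedding are those of `U`.
-/

set_option autoImplicit false
set_option linter.unusedSectionVars false

open scoped Pointwise NumberField
open NumberField IsDedekindDomain

namespace H10FG

open Pool.Agent.H89.FrobD (act Emb)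

section

variable {L : Type} [Field L] [NumberField L] [IsGalois ℚ L]

theorem exists_conj (ι : L →+* ℂ) : ∃ c : Gal(L/ℚ), ∀ x, ι (c x) = (starRingEnd ℂ) (ι x) := by
  let _ : Algebra L ℂ := ι.toAlgebra
  have hT : IsScalarTower ℚ L ℂ := IsScalarTower.of_algebraMap_eq' (Subsingleton.elim _ _)
  let χ : ℂ →ₐ[ℚ] ℂ := (starRingEnd ℂ).toRatAlgHom
  refine ⟨χ.restrictNormal' L, fun x => ?_⟩
  exact AlgHom.restrictNormal_commutes χ L x

theorem exists_rel (ι Φ : L →+* ℂ) : ∃ s : Gal(L/ℚ), ∀ x, Φ x = ι (s x) := by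
  let _ : Algebra L ℂ := ι.toAlgebra
  have hT : IsScalarTower ℚ L ℂ := IsScalarTower.of_algebraMap_eq' (Subsingleton.elim _ _)
  let χ : L →ₐ[ℚ] ℂ := Φ.toRatAlgHom
  let s : L →ₐ[ℚ] L := χ.restrictNormal L
  have hs : ∀ x, ι (s x) = Φ x := fun x => AlgHom.restrictNormal_commutes χ L x
  exact ⟨AlgEquiv.ofBijective s (Algebra.IsAlgebraic.algHom_bijective s), fun x => (hs x).symm⟩

/-- embeddings in `ℂ` extend -/
theorem exists_ext {F : Type} [Field F] [NumberField F] (τ : F →ₐ[ℚ] L) (φ : F →+* ℂ) :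
    ∃ Φ : L →+* ℂ, ∀ x, Φ (τ x) = φ x := by
  let _ : Algebra F L := τ.toRingHom.toAlgebra
  let _ : Algebra F ℂ := φ.toAlgebra
  have hst : IsScalarTower ℚ F L := IsScalarTower.of_algebraMap_eq' (Subsingleton.elim _ _)
  have halg : Algebra.IsAlgebraic F L := Algebra.IsAlgebraic.tower_top (K := ℚ) F
  let Φ : L →ₐ[F] ℂ := IsAlgClosed.lift
  exact ⟨Φ, fun x => Φ.commutes x⟩

end

section

variable {K L : Type} [Field K] [NumberField K] [Field L] [NumberField L] [IsGalois ℚ L]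

/-- the base field of a subgroup -/
theorem base_field (σ₁ : K →ₐ[ℚ] L) (U : Subgroup Gal(L/ℚ)) (hSt : ∀ g, act g σ₁ = σ₁ → g ∈ U)
    (hcard : 2 * Nat.card U = Module.finrank ℚ L)
    (hc : ∀ ι : L →+* ℂ, ∀ c : Gal(L/ℚ), (∀ x, ι (c x) = (starRingEnd ℂ) (ι x)) → c ∈ U) :
    ∃ F : IntermediateField ℚ K, (∃ n : ℕ, 0 < n ∧ Nonempty (F →+* CyclotomicField n ℚ)) ∧
      (∀ φ : F →+* ℂ, (starRingEnd ℂ).comp φ = φ) ∧ ∀ g : Gal(L/ℚ), act g (σ₁.comp F.val) = σ₁.comp F.val ↔ g ∈ U := by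
  classical
  let E₀ : IntermediateField ℚ L := IntermediateField.fixedField U
  let F : IntermediateField ℚ K := E₀.comap σ₁
  let τ : F →ₐ[ℚ] L := σ₁.comp F.val
  have hE₀ : E₀ ≤ σ₁.fieldRange := by
    intro x hx
    rw [← IsGalois.fixedField_fixingSubgroup σ₁.fieldRange, IntermediateField.mem_fixedField_iff]
    intro g hg
    rw [IntermediateField.mem_fixingSubgroup_iff] at hg
    have h1 : g ∈ U := hSt g (by
      ext y
      exact hg (σ₁ y) ⟨y, rfl⟩)
    have h2 := (IntermediateField.mem_fixedField_iff U x).1 hx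
    exact h2 g h1
  have hτ : ∀ x : L, x ∈ E₀ ↔ ∃ y : F, τ y = x := by
    intro x
    constructor
    · intro hx
      obtain ⟨y, hy⟩ := hE₀ hx
      have hy' : σ₁ y = x := hy
      refine ⟨⟨y, ?_⟩, hy'⟩
      show σ₁ y ∈ E₀
      rw [hy']
      exact hx
    · rintro ⟨y, rfl⟩
      exact y.2
  let τ' : F →ₐ[ℚ] E₀ := τ.codRestrict E₀.toSubalgebra fun x => (hτ _).2 ⟨x, rfl⟩
  have hbij : Function.Bijective τ' := by
    refine ⟨τ'.toRingHom.injective, fun x => ?_⟩
    obtain ⟨y, hy⟩ := (hτ x.1).1 x.2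
    exact ⟨y, Subtype.ext hy⟩
  have hfr : Module.finrank ℚ F = Module.finrank ℚ E₀ :=
    (AlgEquiv.ofBijective τ' hbij).toLinearEquiv.finrank_eq
  have h2 : Module.finrank ℚ F = 2 := by
    have h3 : Module.finrank E₀ L = Nat.card U := IntermediateField.finrank_fixedField_eq_card U
    have h4 : Module.finrank ℚ E₀ * Module.finrank E₀ L = Module.finrank ℚ L := Module.finrank_mul_finrank ℚ E₀ L
    have h5 : 0 < Nat.card U := Nat.card_pos
    rw [h3, ← hcard] at h4
    rw [hfr]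
    exact Nat.eq_of_mul_eq_mul_right h5 h4
  have hfix : ∀ g : Gal(L/ℚ), act g τ = τ ↔ g ∈ U := by
    intro g
    rw [← IntermediateField.fixingSubgroup_fixedField U, IntermediateField.mem_fixingSubgroup_iff]
    constructor
    · intro h x hx
      obtain ⟨y, rfl⟩ := (hτ x).1 hx
      exact congrArg (fun χ : F →ₐ[ℚ] L => χ y) h
    · intro h
      ext y
      exact h (τ y) ((hτ _).2 ⟨y, rfl⟩)
  refine ⟨F, ?_, ?_, hfix⟩
  · obtain ⟨f, hf, hn⟩ := H88Q.exists_emb_quad h2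
    exact ⟨f, by omega, hn⟩
  · intro φ
    obtain ⟨Φ, hΦ⟩ := exists_ext τ φ
    obtain ⟨c, hc'⟩ := exists_conj Φ
    have h4 := (hfix c).2 (hc Φ c hc')
    ext y
    show (starRingEnd ℂ) (φ y) = φ y
    have h5 : c (τ y) = τ y := congrArg (fun χ : F →ₐ[ℚ] L => χ y) h4
    rw [← hΦ, ← hc', h5]

end

end H10FG
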