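import Pool.Agent.H89.FrobD.Cor

/-!
# FG Dir: lower Dirichlet densities from the Frobenius density theorem

`frob_lower`: `L / ℚ` Galois, `T` a set of subgroups of the Galois group, `B` a set of primes of density zero.
If `P p` holds for every unramified prime `p` outside `B` with a decomposition group in `T`, the primes with
`P p` have lower Dirichlet density at least `#{g | ⟨g⟩ ∈ T} / [L : ℚ]`.
-/

set_option autoImplicit false
set_option linter.unusedSectionVars false

open scoped Pointwise NumberField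
open MulAction Ideal Finset Filter

namespace H10FG

open Pool.Agent.H71.FD (UD Null)
open Pool.Agent.H24.FD (dS dS_summable dS_mono ud_sum np)
open Pool.Agent.H89.FrobD

open Classical in
/-- the primes in `S` have lower Dirichlet density at least `δ` -/
def LowerDirichlet (S : Set ℕ) (δ : ℝ) : Prop :=
  ∀ ε : ℝ, 0 < ε → ∃ s₀ : ℝ, 1 < s₀ ∧ ∀ s : ℝ, 1 < s → s < s₀ →
    (δ - ε) * Real.log (1 / (s - 1)) ≤ ∑' p : Nat.Primes, if (p : ℕ) ∈ S then ((p : ℕ) : ℝ) ^ (-s) else 0

theorem log_large (C ε : ℝ) (hε : 0 < ε) : ∃ s₀ : ℝ, 1 < s₀ ∧ s₀ ≤ 2 ∧ ∀ s : ℝ, 1 < s → s < s₀ →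
    C ≤ ε * Real.log (1 / (s - 1)) := by
  refine ⟨1 + Real.exp (-(|C| / ε)), by have := Real.exp_pos (-(|C| / ε)); linarith, ?_, ?_⟩
  · have h1 : Real.exp (-(|C| / ε)) ≤ 1 := by
      rw [Real.exp_le_one_iff]
      have : 0 ≤ |C| / ε := by positivity
      linarith
    linarith
  · intro s hs hs0
    have h1 : s - 1 < Real.exp (-(|C| / ε)) := by linarith
    have h2 : 0 < s - 1 := by linarith
    have h3 : Real.log (1 / (s - 1)) = -Real.log (s - 1) := by rw [one_div, Real.log_inv]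
    have h4 : Real.log (s - 1) < -(|C| / ε) := by
      rw [Real.log_lt_iff_lt_exp h2]
      exact h1
    rw [h3]
    have h5 : |C| / ε < -Real.log (s - 1) := by linarith
    have h6 : ε * (|C| / ε) ≤ ε * (-Real.log (s - 1)) := mul_le_mul_of_nonneg_left h5.le hε.le
    have h7 : ε * (|C| / ε) = |C| := by field_simp
    have h8 := le_abs_self C
    linarith

variable (L : Type) [Field L] [NumberField L] [IsGalois ℚ L]

/-- the primes `p`, unramified, with a prime above `p` whose decomposition group is in `T` -/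
def GT (T : Set (Subgroup Gal(L/ℚ))) (p : ℕ) : Prop :=
  ¬ (p : ℤ) ∣ NumberField.discr L ∧ ∃ E ∈ T, (setE L E p).Nonempty

theorem sum_cf_le {p : ℕ} (hp : p.Prime)
    [Fintype (Subgroup Gal(L/ℚ))] :
    ∑ E : Subgroup Gal(L/ℚ), Nat.card E * bE L E p ≤ Nat.card Gal(L/ℚ) := by
  classical
  rcases Set.eq_empty_or_nonempty ((pZ p).primesOver (𝓞 L)) with h | ⟨Q, hQ⟩
  · have h0 : ∀ E : Subgroup Gal(L/ℚ), bE L E p = 0 := by
      intro E
      have : setE L E p = ∅ := by
        rw [Set.eq_empty_iff_forall_notMem]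
        rintro Q ⟨hQ, -⟩
        rw [h] at hQ
        exact hQ
      rw [bE, this, Set.ncard_empty]
    simp [h0]
  · have hfin := fin_over L hp
    -- all stabilisers have the same order
    have := pZ_prime hp
    have hprime := hQ.1
    have hlies := hQ.2
    have horb : MulAction.orbit Gal(L/ℚ) Q = (pZ p).primesOver (𝓞 L) :=
      Algebra.IsInvariant.orbit_eq_primesOver ℤ (𝓞 L) Gal(L/ℚ) (pZ p) Q
    have hst : ∀ Q' ∈ (pZ p).primesOver (𝓞 L),
        Nat.card (stabilizer Gal(L/ℚ) Q') = Nat.card (stabilizer Gal(L/ℚ) Q) := by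
      intro Q' hQ'
      rw [← horb] at hQ'
      obtain ⟨g, rfl⟩ := hQ'
      exact (Nat.card_congr (MulAction.stabilizerEquivStabilizer (g := g) (a := Q) rfl).toEquiv).symm
    have h1 : ∑ E : Subgroup Gal(L/ℚ), Nat.card E * bE L E p =
        ∑ Q' ∈ hfin.toFinset, Nat.card (stabilizer Gal(L/ℚ) Q') := by
      rw [← Finset.sum_fiberwise_of_maps_to (s := hfin.toFinset) (t := univ)
        (g := fun Q' => stabilizer Gal(L/ℚ) Q') (fun Q' _ => mem_univ _)]
      refine sum_congr rfl fun E _ => ?_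
      rw [sum_congr rfl (g := fun _ => Nat.card E) (fun Q' hQ' => by rw [(mem_filter.1 hQ').2])]
      rw [sum_const, smul_eq_mul, mul_comm]
      congr 1
      have hfinE : (setE L E p).Finite := hfin.subset fun Q hQ => hQ.1
      rw [bE, Set.ncard_eq_toFinset_card _ hfinE]
      congr 1
      ext Q'
      simp only [Set.Finite.mem_toFinset, mem_filter, setE, Set.mem_setOf_eq]
    rw [h1, sum_congr rfl (g := fun _ => Nat.card (stabilizer Gal(L/ℚ) Q)) (fun Q' hQ' =>
      hst Q' ((Set.Finite.mem_toFinset _).1 hQ'))]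
    rw [sum_const, smul_eq_mul]
    have h2 := Nat.card_congr (MulAction.orbitProdStabilizerEquivGroup Gal(L/ℚ) Q)
    rw [Nat.card_prod, horb] at h2
    rw [← h2]
    refine Nat.mul_le_mul_right _ ?_
    rw [← Set.ncard_eq_toFinset_card _ hfin]
    exact le_rfl

theorem sum_AA_le (T : Finset (Subgroup Gal(L/ℚ))) {s : ℝ} (hs : 1 < s) :
    ∑ E ∈ T, AA L E s ≤ (Nat.card Gal(L/ℚ) : ℝ) * dS (GT L T) s := by
  classical
  have : Fintype (Subgroup Gal(L/ℚ)) := Fintype.ofFinite _
  unfold AA dS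
  rw [← tsum_mul_left, ← Summable.tsum_finsetSum fun E _ => summable_cf L E s hs]
  refine Summable.tsum_le_tsum (fun p => ?_) (summable_sum fun E _ => summable_cf L E s hs)
    ((dS_summable (GT L T) hs).mul_left _)
  have hw : (0 : ℝ) ≤ ((p : ℕ) : ℝ) ^ (-s) := Real.rpow_nonneg (Nat.cast_nonneg _) _
  rw [← Finset.sum_mul]
  unfold wt
  by_cases h : ((p : ℕ) : ℤ) ∣ NumberField.discr L
  · have h0 : ∑ E ∈ T, cf L E p = 0 := by
      refine sum_eq_zero fun E _ => ?_
      unfold cf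
      rw [if_pos h]
    rw [h0, zero_mul]
    split_ifs
    · positivity
    · simp
  · have h0 : ∑ E ∈ T, cf L E p = ((∑ E ∈ T, Nat.card E * bE L E p : ℕ) : ℝ) := by
      rw [Nat.cast_sum]
      refine sum_congr rfl fun E _ => ?_
      unfold cf
      rw [if_neg h]
    rw [h0]
    by_cases h2 : GT L T p
    · rw [if_pos h2]
      refine mul_le_mul_of_nonneg_right ?_ hw
      exact_mod_cast (sum_le_sum_of_subset (subset_univ T)).trans (sum_cf_le L p.2)
    · have h3 : ∑ E ∈ T, Nat.card E * bE L E p = 0 := by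
        refine sum_eq_zero fun E hE => ?_
        have h4 : ¬ (setE L E p).Nonempty := fun h5 => h2 ⟨h, E, hE, h5⟩
        rw [bE, Set.not_nonempty_iff_eq_empty.1 h4, Set.ncard_empty, mul_zero]
      rw [h3, Nat.cast_zero, zero_mul, if_neg h2, mul_zero]

/-- the number of elements generating a group in `T` -/
theorem card_gens (T : Finset (Subgroup Gal(L/ℚ))) :
    Nat.card {g : Gal(L/ℚ) // Subgroup.zpowers g ∈ T} = ∑ E ∈ T, gens L E := by
  classical
  have : Fintype Gal(L/ℚ) := Fintype.ofFinite _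
  rw [Nat.card_eq_fintype_card, Fintype.card_subtype,
    Finset.card_eq_sum_card_fiberwise (f := fun x => Subgroup.zpowers x)
    (t := T) (fun x hx => by
      have := (mem_filter.1 (mem_coe.1 hx)).2
      exact mem_coe.2 this)]
  refine sum_congr rfl fun E hE => ?_
  rw [gens, Nat.card_eq_fintype_card, Fintype.card_subtype]
  congr 1
  ext x
  simp only [mem_filter, mem_univ, true_and]
  constructor
  · rintro ⟨-, h⟩
    exact h
  · exact fun h => ⟨h ▸ hE, h⟩

theorem GT_sum (T : Finset (Subgroup Gal(L/ℚ))) :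
    ∃ C : ℝ, ∀ s : ℝ, 1 < s → s < 2 →
      (Nat.card {g : Gal(L/ℚ) // Subgroup.zpowers g ∈ T} : ℝ) / (Module.finrank ℚ L : ℝ) *
        Real.log (1 / (s - 1)) - C ≤ dS (GT L T) s := by
  choose C hC using fun E => frob_density L E
  have hcard : Nat.card Gal(L/ℚ) = Module.finrank ℚ L := IsGalois.card_aut_eq_finrank ℚ L
  have hn : (0 : ℝ) < (Module.finrank ℚ L : ℝ) := by exact_mod_cast Module.finrank_pos
  refine ⟨(∑ E ∈ T, C E) / (Module.finrank ℚ L : ℝ), fun s hs hs2 => ?_⟩
  have h2 := sum_AA_le L T hs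
  rw [hcard] at h2
  have h4 : (∑ E ∈ T, (gens L E : ℝ)) * Real.log (1 / (s - 1)) - ∑ E ∈ T, C E ≤ ∑ E ∈ T, AA L E s := by
    rw [sum_mul, ← sum_sub_distrib]
    refine sum_le_sum fun E _ => ?_
    have h1 := (abs_le.1 (hC E s hs hs2)).1
    linarith
  rw [card_gens L T, Nat.cast_sum]
  have h5 : (∑ E ∈ T, (gens L E : ℝ)) / (Module.finrank ℚ L : ℝ) * Real.log (1 / (s - 1)) -
      (∑ E ∈ T, C E) / (Module.finrank ℚ L : ℝ) =
      ((∑ E ∈ T, (gens L E : ℝ)) * Real.log (1 / (s - 1)) - ∑ E ∈ T, C E) /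
        (Module.finrank ℚ L : ℝ) := by ring
  rw [h5, div_le_iff₀ hn]
  linarith

/-- LOWER DIRICHLET DENSITY -/
theorem frob_lower (T : Set (Subgroup Gal(L/ℚ))) {B : ℕ → Prop} (hB : Null B) (S : Set ℕ)
    (h : ∀ p : ℕ, p.Prime → ¬ (p : ℤ) ∣ NumberField.discr L → ¬ B p →
      ∀ E ∈ T, (setE L E p).Nonempty → p ∈ S) :
    LowerDirichlet S
      ((Nat.card {g : Gal(L/ℚ) // Subgroup.zpowers g ∈ T} : ℝ) / (Module.finrank ℚ L : ℝ)) := by
  classical
  have : Fintype (Subgroup Gal(L/ℚ)) := Fintype.ofFinite _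
  obtain ⟨T', hT'⟩ : ∃ T' : Finset (Subgroup Gal(L/ℚ)), (T' : Set (Subgroup Gal(L/ℚ))) = T :=
    ⟨T.toFinset, Set.coe_toFinset T⟩
  obtain ⟨C, hC⟩ := GT_sum L T'
  have hcd : Nat.card {g : Gal(L/ℚ) // Subgroup.zpowers g ∈ T'} =
      Nat.card {g : Gal(L/ℚ) // Subgroup.zpowers g ∈ T} := by
    subst hT'
    rfl
  intro ε hε
  obtain ⟨C', hC'⟩ := ud_sum (G := B) (e := 0) hB (η := ε / 2) (by positivity) (by positivity)
  obtain ⟨s₀, hs₀, hs₂, hlog⟩ := log_large (C + C') (ε / 2) (by positivity)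
  refine ⟨s₀, hs₀, fun s hs hss => ?_⟩
  have h1 := hC s hs (by linarith)
  have h2 := hC' s hs (by linarith)
  have h3 := hlog s hs hss
  rw [hcd] at h1
  have h4 : dS (GT L T') s ≤ dS (fun p => p ∈ S) s + dS B s := by
    unfold dS
    rw [← Summable.tsum_add (dS_summable _ hs) (dS_summable B hs)]
    refine (dS_summable (GT L T') hs).tsum_le_tsum (fun p => ?_)
      ((dS_summable _ hs).add (dS_summable B hs))
    have hw : (0 : ℝ) ≤ ((p : ℕ) : ℝ) ^ (-s) := Real.rpow_nonneg (Nat.cast_nonneg _) _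
    by_cases h5 : GT L T' p
    · rw [if_pos h5]
      by_cases h6 : B p
      · rw [if_pos h6]
        split_ifs
        · linarith
        · linarith
      · obtain ⟨hd, E, hE, hne⟩ := h5
        have h7 : (p : ℕ) ∈ S := h p p.2 hd h6 E (by rw [← hT']; exact hE) hne
        rw [if_pos h7, if_neg h6, add_zero]
    · rw [if_neg h5]
      split_ifs <;> linarith
  have h5 : dS (fun p => p ∈ S) s = ∑' p : Nat.Primes, if (p : ℕ) ∈ S then ((p : ℕ) : ℝ) ^ (-s) else 0 := rfl
  rw [← h5]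
  linarith

end H10FG
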