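import Pool.Agent.H85.FD.Adm

/-!
# FG Spl: the splitting criterion in explicit form
-/

set_option autoImplicit false

namespace H10FG

/-- The multiset `s` of degrees splits: it is divided into six parts `T₁, T₂, T₃, U₁, U₂, E`, where `T₁, T₂, T₃` have
equal sums, `U₁, U₂` have equal sums and contain only multiples of `3` unless `r = 1`, and `E` is empty or `r = 2`
and all its members are even. -/
def Splits (r : ℕ) (s : Multiset ℕ) : Prop :=
  ∃ T₁ T₂ T₃ U₁ U₂ E : Multiset ℕ, s = T₁ + T₂ + T₃ + U₁ + U₂ + E ∧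
    T₁.sum = T₂.sum ∧ T₂.sum = T₃.sum ∧ U₁.sum = U₂.sum ∧
    (r = 1 ∨ ∀ k ∈ U₁ + U₂, 3 ∣ k) ∧ ∀ k ∈ E, r = 2 ∧ Even k

theorem splits_of (r : ℕ) (W : Prop) (s : Multiset (ℕ × ℕ)) (h : H85FD.Splits r W s) :
    (∀ k ∈ s, k.1 = k.2) → Splits r (s.map Prod.fst) := by
  induction h with
  | nil =>
    intro _
    exact ⟨0, 0, 0, 0, 0, 0, by simp, rfl, rfl, rfl, Or.inr (by simp), by simp⟩
  | block n A s hk hs h ih =>
    intro hd
    obtain ⟨T₁, T₂, T₃, U₁, U₂, E, h0, h1, h2, h3, h4, h5⟩ := ih fun k hk =>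
      hd k (Multiset.mem_add.2 (Or.inr hk))
    have hdA : ∀ k ∈ ∑ i, A i, k.1 = k.2 := fun k hk => hd k (Multiset.mem_add.2 (Or.inl hk))
    obtain ⟨a, ha⟩ : ∃ a : Fin n → Multiset ℕ, a = fun i => (A i).map Prod.fst := ⟨_, rfl⟩
    have hsum : (∑ i, A i).map Prod.fst = ∑ i, a i := by
      rw [ha]
      exact map_sum (Multiset.mapAddMonoidHom Prod.fst) A Finset.univ
    have hs' : ∀ i j, (a i).sum = (a j).sum := by
      intro i j
      rw [ha]
      exact hs i j
    have hmem : ∀ k ∈ ∑ i, a i, ∃ k' ∈ ∑ i, A i, k'.1 = k ∧ k'.2 = k := by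
      intro k hk
      rw [← hsum] at hk
      obtain ⟨k', hk', rfl⟩ := Multiset.mem_map.1 hk
      exact ⟨k', hk', rfl, (hdA k' hk').symm⟩
    rw [Multiset.map_add, hsum, h0]
    rcases hk with rfl | ⟨rfl, -⟩ | ⟨rfl, hk⟩ | ⟨rfl, hr, hk⟩
    · refine ⟨T₁ + a 0 + a 1, T₂ + a 2 + a 3, T₃ + a 4 + a 5, U₁, U₂, E, ?_, ?_, ?_, h3, h4, h5⟩
      · rw [Fin.sum_univ_six]
        abel
      · rw [Multiset.sum_add, Multiset.sum_add, Multiset.sum_add, Multiset.sum_add, h1, hs' 0 2, hs' 1 3]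
      · rw [Multiset.sum_add, Multiset.sum_add, Multiset.sum_add, Multiset.sum_add, h2, hs' 2 4, hs' 3 5]
    · refine ⟨T₁ + a 0, T₂ + a 1, T₃ + a 2, U₁, U₂, E, ?_, ?_, ?_, h3, h4, h5⟩
      · rw [Fin.sum_univ_three]
        abel
      · rw [Multiset.sum_add, Multiset.sum_add, h1, hs' 0 1]
      · rw [Multiset.sum_add, Multiset.sum_add, h2, hs' 1 2]
    · refine ⟨T₁, T₂, T₃, U₁ + a 0, U₂ + a 1, E, ?_, h1, h2, ?_, ?_, h5⟩
      · rw [Fin.sum_univ_two]
        abel
      · rw [Multiset.sum_add, Multiset.sum_add, h3, hs' 0 1]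
      · rcases hk with hk | hk
        · exact Or.inl hk
        · rcases h4 with h4 | h4
          · exact Or.inl h4
          · right
            intro k hk'
            have e : U₁ + a 0 + (U₂ + a 1) = (U₁ + U₂) + ∑ i, a i := by
              rw [Fin.sum_univ_two]
              abel
            rw [e, Multiset.mem_add] at hk'
            rcases hk' with hk' | hk'
            · exact h4 k hk'
            · obtain ⟨k', h6, -, h7⟩ := hmem k hk'
              rw [← h7]
              exact hk k' h6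
    · refine ⟨T₁, T₂, T₃, U₁, U₂, E + a 0, ?_, h1, h2, h3, h4, ?_⟩
      · rw [Fin.sum_univ_one]
        abel
      · intro k hk'
        rw [Multiset.mem_add] at hk'
        rcases hk' with hk' | hk'
        · exact h5 k hk'
        · obtain ⟨k', h6, -, h7⟩ := hmem k (by rwa [Fin.sum_univ_one])
          rw [← h7]
          exact ⟨hr, hk k' h6⟩

/-- a part larger than half of the sum -/
theorem Splits.big {r : ℕ} {s : Multiset ℕ} (h : Splits r s) {k : ℕ} (hk : k ∈ s) (hb : s.sum < 2 * k) :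
    r = 2 ∧ Even k := by
  obtain ⟨T₁, T₂, T₃, U₁, U₂, E, h0, h1, h2, h3, -, h5⟩ := h
  have hs : s.sum = T₁.sum + T₂.sum + T₃.sum + U₁.sum + U₂.sum + E.sum := by
    rw [h0]
    simp only [Multiset.sum_add]
  have hle : ∀ T : Multiset ℕ, k ∈ T → k ≤ T.sum := fun T hT => Multiset.le_sum_of_mem hT
  rw [h0] at hk
  simp only [Multiset.mem_add] at hk
  rcases hk with ((((hk | hk) | hk) | hk) | hk) | hk
  · have := hle _ hk
    omega
  · have := hle _ hk
    omega
  · have := hle _ hk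
    omega
  · have := hle _ hk
    omega
  · have := hle _ hk
    omega
  · exact h5 k hk

end H10FG
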