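import Pool.Agent.H10.FG.Dir
import Pool.Agent.H10.FG.Spl
import Pool.Agent.H85.FD.Parts
import Pool.Agent.H89.FrobD.Rel
import Pool.Agent.H31.AB.AdmR
import Pool.Agent.H55.AB.RelAll

/-!
# FG Main: the first case for the Frobenius classes whose cycle type does not split

`rel_lower`: `F` a totally real abelian field, `K` a number field which contains `F`, `L / ℚ` Galois with `K → L` and
`ω ∈ L`, `C` a set of elements `g` of the Galois group such that for some embedding `τ : F → L`, with `k` the period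
of `τ` under `g`, the cycle type of `g ^ k` on the embeddings `K → L` over `τ` does not split.  Then the
primes `p` for which the first case holds over `K` have lower Dirichlet density at least `#C / [L : ℚ]`.
-/

set_option autoImplicit false
set_option linter.unusedSectionVars false

open scoped Pointwise NumberField
open NumberField IsDedekindDomain

namespace H10FG

open Pool.Agent.H71.FD (Null Null_of_bounded)
open Pool.Agent.H89.FrobD (setE act Emb rel_part pow_mod_three_iff pow_mod_three_iff' act_iter)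
open H85FD (SplitsN Parts)

/-- the two forms of the criterion -/
theorem Splits.toN {r : ℕ} {s : Multiset ℕ} (h : Splits r s) : SplitsN r s := by
  obtain ⟨T₁, T₂, T₃, U₁, U₂, E, h0, h1, h2, h3, h4, h5⟩ := h
  refine ⟨T₁ + T₂ + T₃, U₁ + U₂, E, ?_, ⟨![T₁, T₂, T₃], ?_, ?_⟩, ⟨![U₁, U₂], ?_, ?_⟩, ?_,
    fun k hk => (h5 k hk).2, fun hr => ?_⟩
  · rw [h0]
    abel
  · rw [Fin.sum_univ_three]
    rfl
  · intro i j
    fin_cases i <;> fin_cases j <;> simp <;> omega
  · rw [Fin.sum_univ_two]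
    rfl
  · intro i j
    fin_cases i <;> fin_cases j <;> simp <;> omega
  · intro hr
    rcases h4 with h4 | h4
    · omega
    · exact h4
  · by_contra hE
    obtain ⟨k, hk⟩ := Multiset.exists_mem_of_ne_zero hE
    exact hr (h5 k hk).1

/-- the first case for the exponent `p` over `K` -/
def FC (K : Type*) [Field K] [NumberField K] (p : ℕ) : Prop :=
  ∀ a b c : K, a ≠ 0 → b ≠ 0 → c ≠ 0 → a ^ p + b ^ p + c ^ p = 0 →
    ∃ v : HeightOneSpectrum (𝓞 K), (p : 𝓞 K) ∈ v.asIdeal ∧ ¬ H55AB.EqAt v a b c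

universe u v

/-- all the solutions in the first case: the degrees above every prime of `F` split -/
theorem master_splits (f : ℕ) (hf : 2 ≤ f) (d : ℕ) : ∃ B : ℕ → Prop, Null B ∧
    ∀ p : ℕ, p.Prime → ¬ B p → 5 ≤ p ∧ ∀ (F : Type u) (K : Type v) [Field F] [NumberField F] [Field K]
      [NumberField K] [Algebra F K], Nonempty (F →+* CyclotomicField f ℚ) →
      (∀ φ : F →+* ℂ, (starRingEnd ℂ).comp φ = φ) → Module.finrank F K ≤ d →
      ∀ a b c : K, a ≠ 0 → b ≠ 0 → c ≠ 0 → a ^ p + b ^ p + c ^ p = 0 →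
      ∀ w : HeightOneSpectrum (𝓞 F), (p : 𝓞 F) ∈ w.asIdeal →
      ∀ S : Finset (HeightOneSpectrum (𝓞 K)),
        (∀ v, v ∈ S ↔ v.asIdeal.LiesOver w.asIdeal ∧ H55AB.EqAt v a b c) →
      H85FD.Splits (Nat.card (𝓞 F ⧸ w.asIdeal) % 3) (p ^ 2 ∣ 2 ^ (p - 1) - 1) (S.val.map (H31AB.degR F)) := by
  obtain ⟨B, hB, h⟩ := H72AB.master_real.{u, v} f hf d
  have : NeZero f := ⟨by omega⟩
  refine ⟨fun p => B p ∨ p ≤ max 4 (f * d), hB.or (Null_of_bounded _ fun _ _ h => h),
    fun p hp hBp => ?_⟩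
  push Not at hBp
  obtain ⟨hB1, hB2⟩ := hBp
  have h4 : 5 ≤ p := by
    have := lt_of_le_of_lt (le_max_left 4 (f * d)) hB2
    omega
  refine ⟨h4, fun F K _ _ _ _ _ hF hreal hd a b c ha hb hc hsol w hw S hS => ?_⟩
  have hfact : Fact p.Prime := ⟨hp⟩
  have hdim : Module.finrank ℚ K < p :=
    (H55AB.finrank_le f F hF K d hd).trans_lt (lt_of_le_of_lt (le_max_right 4 (f * d)) hB2)
  refine H31AB.rel_splits F K p h4 hdim ?_ a b c ha hb hc hsol w hw S fun v => ?_
  · intro a' b' c' hF' hcp w' x h0 h1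
    obtain ⟨e1, e2⟩ := h p hp hB1 F K hF hreal hd a' b' c' hF' hcp (AlgebraicClosure (ZMod p)) w' x h0 h1
    exact ⟨e1.symm, e2.symm⟩
  · rw [hS v, Ideal.liesOver_iff, eq_comm]

/-- the primes of `K` above a prime of `F` -/
theorem exists_over (F : Type*) (K : Type*) [Field F] [NumberField F] [Field K] [NumberField K] [Algebra F K]
    (w : HeightOneSpectrum (𝓞 F)) : ∃ S : Finset (HeightOneSpectrum (𝓞 K)),
      ∀ v, v ∈ S ↔ v.asIdeal.LiesOver w.asIdeal := by
  classical
  have hw := w.isPrime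
  have hwm : w.asIdeal.IsMaximal := w.isMaximal
  have hfin : (w.asIdeal.primesOver (𝓞 K)).Finite :=
    IsDedekindDomain.primesOver_finite w.asIdeal (𝓞 K)
  have h2 : {v : HeightOneSpectrum (𝓞 K) | v.asIdeal.LiesOver w.asIdeal}.Finite := by
    refine Set.Finite.of_finite_image (f := fun v => v.asIdeal) (hfin.subset ?_) ?_
    · rintro _ ⟨v, hv, rfl⟩
      exact ⟨v.isPrime, hv⟩
    · intro a _ b _ hab
      exact HeightOneSpectrum.ext hab
  exact ⟨h2.toFinset, fun v => by rw [Set.Finite.mem_toFinset]; rfl⟩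

variable {L : Type} [Field L] [NumberField L] [IsGalois ℚ L]

/-- a Frobenius element whose cycle type does not split -/
theorem first_of_parts {F K : Type} [Field F] [NumberField F] [Field K] [NumberField K] [Algebra F K]
    (σ₁ : K →ₐ[ℚ] L) {p : ℕ} (hp : p.Prime)
    (hd : ¬ (p : ℤ) ∣ NumberField.discr L) (W : Prop)
    (hsp : ∀ a b c : K, a ≠ 0 → b ≠ 0 → c ≠ 0 → a ^ p + b ^ p + c ^ p = 0 →
      ∀ w : HeightOneSpectrum (𝓞 F), (p : 𝓞 F) ∈ w.asIdeal → ∀ S : Finset (HeightOneSpectrum (𝓞 K)),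
        (∀ v, v ∈ S ↔ v.asIdeal.LiesOver w.asIdeal ∧ H55AB.EqAt v a b c) →
      H85FD.Splits (Nat.card (𝓞 F ⧸ w.asIdeal) % 3) W (S.val.map (H31AB.degR F)))
    (g : Gal(L/ℚ)) (hE : (setE L (Subgroup.zpowers g) p).Nonempty) (τ : F →ₐ[ℚ] L)
    [Fintype (Emb K τ)] [DecidableEq (Emb K τ)] (π : Equiv.Perm (Emb K τ))
    (hπ : ∀ σ, (π σ).1 = act (g ^ Function.minimalPeriod (act g) τ) σ.1) (r : ℕ)
    (hr : p ^ Function.minimalPeriod (act g) τ % 3 = r)
    (hn : ¬ SplitsN r π.partition.parts) : FC K p := by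
  intro a b c ha hb hc hsol
  by_contra hcon
  push Not at hcon
  obtain ⟨u, hu, hcard, hparts⟩ := rel_part hp hd g hE σ₁ τ π hπ
  obtain ⟨S, hS⟩ := exists_over F K u
  have hS' : ∀ v, v ∈ S ↔ v.asIdeal.LiesOver u.asIdeal ∧ H55AB.EqAt v a b c := by
    intro v
    rw [hS v]
    refine ⟨fun h => ⟨h, hcon v ?_⟩, fun h => h.1⟩
    have h1 : u.asIdeal = v.asIdeal.under (𝓞 F) := (Ideal.liesOver_iff _ _).1 h
    rw [h1] at hu
    have h2 : algebraMap (𝓞 F) (𝓞 K) (p : 𝓞 F) ∈ v.asIdeal := hu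
    rwa [map_natCast] at h2
  have h1 := hsp a b c ha hb hc hsol u hu S hS'
  have h2 : S.val.map (H31AB.degR F) = π.partition.parts.map (fun m => (m, m)) := hparts S hS
  rw [h2, hcard, hr] at h1
  have h3 := splits_of _ W _ h1 (by
    intro k hk
    obtain ⟨m, -, rfl⟩ := Multiset.mem_map.1 hk
    rfl)
  have h4 : (π.partition.parts.map (fun m => (m, m))).map Prod.fst = π.partition.parts := by
    rw [Multiset.map_map]
    exact Multiset.map_id _
  rw [h4] at h3
  exact hn h3.toN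

/-- finite unions -/
theorem null_finset {ι : Type*} (s : Finset ι) (B : ι → ℕ → Prop) (h : ∀ i ∈ s, Null (B i)) :
    Null (fun p => ∃ i ∈ s, B i p) := by
  classical
  induction s using Finset.induction_on with
  | empty => exact Null_of_bounded 0 fun p _ h => absurd h (by simp)
  | insert a s ha ih =>
    have h1 := (h a (Finset.mem_insert_self a s)).or (ih fun i hi => h i (Finset.mem_insert_of_mem hi))
    have h2 : (fun p => B a p ∨ ∃ i ∈ s, B i p) = fun p => ∃ i ∈ insert a s, B i p := by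
      funext p
      simp
    rw [← h2]
    exact h1

theorem emb_two (n : ℕ) (hn : 0 < n) : Nonempty (CyclotomicField n ℚ →+* CyclotomicField (n * 2) ℚ) := by
  have h1 : NeZero n := ⟨hn.ne'⟩
  have h2 : NeZero (n * 2) := ⟨by omega⟩
  have h3 : NeZero (((n : ℕ) : ℕ) : ℚ) := ⟨Nat.cast_ne_zero.2 (NeZero.ne n)⟩
  have h4 : NeZero (((n * 2 : ℕ) : ℕ) : ℚ) := ⟨Nat.cast_ne_zero.2 (NeZero.ne (n * 2))⟩
  have h5 : IsCyclotomicExtension {n} ℚ (CyclotomicField n ℚ) := CyclotomicField.isCyclotomicExtension n ℚ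
  have h6 : IsCyclotomicExtension {n * 2} ℚ (CyclotomicField (n * 2) ℚ) :=
    CyclotomicField.isCyclotomicExtension (n * 2) ℚ
  obtain ⟨φ⟩ := H9AB.exists_emb n 2 (CyclotomicField n ℚ) (CyclotomicField (n * 2) ℚ)
  exact ⟨(φ : CyclotomicField n ℚ →+* CyclotomicField (n * 2) ℚ)⟩

theorem LowerDirichlet.mono {S T : Set ℕ} {δ δ' : ℝ} (h : LowerDirichlet S δ)
    (hST : ∀ p, p.Prime → p ∈ S → p ∈ T) (hδ : δ' ≤ δ) : LowerDirichlet T δ' := by
  classical
  intro ε hε
  obtain ⟨s₀, hs₀, h1⟩ := h ε hε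
  refine ⟨min s₀ 2, lt_min hs₀ (by norm_num), fun s hs hss => ?_⟩
  have h2 := h1 s hs (hss.trans_le (min_le_left _ _))
  have h3 : s < 2 := hss.trans_le (min_le_right _ _)
  have h4 : 0 ≤ Real.log (1 / (s - 1)) := by
    apply Real.log_nonneg
    rw [le_div_iff₀ (by linarith)]
    linarith
  have h5 : (δ' - ε) * Real.log (1 / (s - 1)) ≤ (δ - ε) * Real.log (1 / (s - 1)) :=
    mul_le_mul_of_nonneg_right (by linarith) h4
  refine h5.trans (h2.trans ?_)
  refine (Pool.Agent.H24.FD.dS_summable (fun p => p ∈ S) hs).tsum_le_tsum (fun p => ?_)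
    (Pool.Agent.H24.FD.dS_summable (fun p => p ∈ T) hs)
  have hw : (0 : ℝ) ≤ ((p : ℕ) : ℝ) ^ (-s) := Real.rpow_nonneg (Nat.cast_nonneg _) _
  by_cases h6 : (p : ℕ) ∈ S
  · rw [if_pos h6, if_pos (hST p p.2 h6)]
  · rw [if_neg h6]
    split_ifs <;> linarith

/-- from Frobenius elements to the density -/
theorem core_lower (K : Type*) [Field K] [NumberField K] {B : ℕ → Prop} (hB : Null B) (C : Set Gal(L/ℚ))
    (h : ∀ p : ℕ, p.Prime → ¬ (p : ℤ) ∣ NumberField.discr L → ¬ B p →
      ∀ g ∈ C, (setE L (Subgroup.zpowers g) p).Nonempty → FC K p) :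
    LowerDirichlet {p | FC K p} ((C.ncard : ℝ) / (Module.finrank ℚ L : ℝ)) := by
  refine (frob_lower L {E | ∃ g ∈ C, Subgroup.zpowers g = E} hB {p | FC K p} ?_).mono
    (fun _ _ h => h) ?_
  · rintro p hp hd hBp _ ⟨g, hg, rfl⟩ hE
    exact h p hp hd hBp g hg hE
  · refine div_le_div_of_nonneg_right (Nat.cast_le.2 ?_) (Nat.cast_nonneg _)
    rw [← Nat.card_coe_set_eq]
    exact Nat.card_le_card_of_injective (fun g => ⟨g.1, ⟨g.1, g.2, rfl⟩⟩) fun a b hab => by
      have := congrArg Subtype.val hab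
      exact Subtype.ext this

/-- LOWER DIRICHLET DENSITY, relative form -/
theorem blocked_lower {K : Type} [Field K] [NumberField K] (σ₁ : K →ₐ[ℚ] L) (C : Set Gal(L/ℚ))
    (hC : ∀ g ∈ C, ∃ (F : IntermediateField ℚ K), (∃ n : ℕ, 0 < n ∧ Nonempty (F →+* CyclotomicField n ℚ)) ∧
      (∀ φ : F →+* ℂ, (starRingEnd ℂ).comp φ = φ) ∧
      ∃ (τ : F →ₐ[ℚ] L) (_ : Fintype (Emb K τ)) (_ : DecidableEq (Emb K τ)) (π : Equiv.Perm (Emb K τ)),
        (∀ σ, (π σ).1 = act (g ^ Function.minimalPeriod (act g) τ) σ.1) ∧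
        ∀ r : ℕ, (r = 1 ∨ r = 2) → (∀ ω : L, ω ^ 2 + ω + 1 = 0 →
          ((g ^ Function.minimalPeriod (act g) τ) ω = ω ↔ r = 1)) → ¬ SplitsN r π.partition.parts) :
    LowerDirichlet {p | FC K p} ((C.ncard : ℝ) / (Module.finrank ℚ L : ℝ)) := by
  classical
  have hex : ∀ g : Gal(L/ℚ), ∃ B : ℕ → Prop, Null B ∧ (g ∈ C → ∀ p : ℕ, p.Prime →
      ¬ (p : ℤ) ∣ NumberField.discr L → ¬ B p → (setE L (Subgroup.zpowers g) p).Nonempty → FC K p) := by
    intro g
    by_cases hg : g ∈ C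
    · obtain ⟨F, ⟨n, hn, ⟨ι⟩⟩, hreal, τ, hfin, hdec, π, hπ, hr⟩ := hC g hg
      obtain ⟨κ⟩ := emb_two n hn
      obtain ⟨B, hB, h⟩ := master_splits.{0, 0} (n * 2) (by omega) (Module.finrank F K)
      refine ⟨B, hB, fun _ p hp hd hBp hE => ?_⟩
      obtain ⟨hp5, h1⟩ := h p hp hBp
      have h2 := h1 F K ⟨κ.comp ι⟩ hreal le_rfl
      have hp3 : 3 < p := by omega
      set k := Function.minimalPeriod (act g) τ with hk
      have hpk : p ^ k % 3 = 1 ∨ p ^ k % 3 = 2 := by
        by_cases h4 : p ^ k % 3 = 1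
        · exact Or.inl h4
        · exact Or.inr (Pool.Agent.H89.FrobD.pow_mod_three_ne hp hp3 k h4)
      exact first_of_parts σ₁ hp hd _ (fun a b c ha hb hc hs => h2 a b c ha hb hc hs) g hE τ π hπ
        (p ^ k % 3) rfl (hr (p ^ k % 3) hpk fun ω hω => (pow_mod_three_iff hp hp3 hd g hE k ω hω).symm)
    · exact ⟨fun _ => False, Null_of_bounded 0 fun _ _ h => h.elim, fun h => absurd h hg⟩
  choose B hB h using hex
  have hfin : Finite Gal(L/ℚ) := inferInstance
  have : Fintype Gal(L/ℚ) := Fintype.ofFinite _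
  refine core_lower K (null_finset Finset.univ B fun g _ => hB g) C fun p hp hd hBp g hg hE => ?_
  push Not at hBp
  exact h g hg p hp hd (hBp g (Finset.mem_univ g)) hE

/-- the permutation of the embeddings -/
def actP (K : Type*) [Field K] [NumberField K] (g : Gal(L/ℚ)) : Equiv.Perm (K →ₐ[ℚ] L) where
  toFun := act g
  invFun := act g⁻¹
  left_inv σ := by
    rw [← Pool.Agent.H89.FrobD.act_mul, inv_mul_cancel, Pool.Agent.H89.FrobD.act_one]
  right_inv σ := by
    rw [← Pool.Agent.H89.FrobD.act_mul, mul_inv_cancel, Pool.Agent.H89.FrobD.act_one]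

/-- the cycle type of a permutation of another set -/
theorem parts_congr {X Y : Type*} [Fintype X] [DecidableEq X] [Fintype Y] [DecidableEq Y] (e : X ≃ Y)
    (π : Equiv.Perm X) (ρ : Equiv.Perm Y) (h : ∀ x, e (π x) = ρ (e x)) :
    π.partition.parts = ρ.partition.parts := by
  refine Pool.Agent.H89.FrobD.multiset_eq_of_mul (fun d hd => π.partition.parts_pos hd)
    (fun d hd => ρ.partition.parts_pos hd) fun d hd => ?_
  rw [Pool.Agent.H89.FrobD.perm_count π d hd, Pool.Agent.H89.FrobD.perm_count ρ d hd]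
  have hit : ∀ (n : ℕ) (x : X), e (π^[n] x) = ρ^[n] (e x) := by
    intro n
    induction n with
    | zero => intro x; rfl
    | succ n ih =>
      intro x
      rw [Function.iterate_succ_apply, Function.iterate_succ_apply, ih, h]
  have hper : ∀ x : X, Function.minimalPeriod ρ (e x) = Function.minimalPeriod π x := by
    intro x
    rw [Function.minimalPeriod_eq_minimalPeriod_iff]
    intro n
    rw [Function.IsPeriodicPt, Function.IsPeriodicPt, Function.IsFixedPt, Function.IsFixedPt, ← hit]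
    exact e.injective.eq_iff
  refine Finset.card_bij (fun x _ => e x) (fun x hx => ?_) (fun a _ b _ hab => e.injective hab) (fun y hy => ?_)
  · rw [Finset.mem_filter] at hx ⊢
    exact ⟨Finset.mem_univ _, by rw [hper]; exact hx.2⟩
  · rw [Finset.mem_filter] at hy
    refine ⟨e.symm y, ?_, e.apply_symm_apply y⟩
    rw [Finset.mem_filter]
    refine ⟨Finset.mem_univ _, ?_⟩
    rw [← hper, e.apply_symm_apply]
    exact hy.2

/-- LOWER DIRICHLET DENSITY, absolute form -/
theorem abs_lower {K : Type} [Field K] [NumberField K] (σ₁ : K →ₐ[ℚ] L) (C : Set Gal(L/ℚ))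
    (hC : ∀ g ∈ C, ∃ (_ : Fintype (K →ₐ[ℚ] L)) (_ : DecidableEq (K →ₐ[ℚ] L)) (π : Equiv.Perm (K →ₐ[ℚ] L)),
        (∀ σ, π σ = act g σ) ∧
        ∀ r : ℕ, (r = 1 ∨ r = 2) → (∀ ω : L, ω ^ 2 + ω + 1 = 0 → (g ω = ω ↔ r = 1)) →
          ¬ SplitsN r π.partition.parts) :
    LowerDirichlet {p | FC K p} ((C.ncard : ℝ) / (Module.finrank ℚ L : ℝ)) := by
  classical
  obtain ⟨B, hB, h⟩ := master_splits.{0, 0} 2 le_rfl (Module.finrank ℚ K)
  refine core_lower K hB C fun p hp hd hBp g hg hE => ?_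
  obtain ⟨hfin, hdec, π, hπ, hr⟩ := hC g hg
  obtain ⟨hp5, h1⟩ := h p hp hBp
  have hp3 : 3 < p := by omega
  have hreal : ∀ φ : ℚ →+* ℂ, (starRingEnd ℂ).comp φ = φ := fun φ => Subsingleton.elim _ _
  have h2 := h1 ℚ K ⟨algebraMap ℚ _⟩ hreal le_rfl
  let τ : ℚ →ₐ[ℚ] L := Algebra.ofId ℚ L
  have hk : Function.minimalPeriod (act g) τ = 1 := by
    rw [Function.minimalPeriod_eq_one_iff_isFixedPt, Function.IsFixedPt]
    refine AlgHom.ext fun x => ?_
    have h3 := (act g τ).commutes x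
    have h4 := τ.commutes x
    exact h3.trans h4.symm
  let e : (K →ₐ[ℚ] L) ≃ Emb K τ :=
    { toFun := fun σ => ⟨σ, fun x => by
        show σ (algebraMap ℚ K x) = algebraMap ℚ L x
        exact σ.commutes x⟩
      invFun := fun σ => σ.1
      left_inv := fun _ => rfl
      right_inv := fun _ => rfl }
  have : Fintype (Emb K τ) := Fintype.ofEquiv _ e
  let ρ : Equiv.Perm (Emb K τ) := (e.symm.trans π).trans e
  have hρ : ∀ σ, (ρ σ).1 = act (g ^ Function.minimalPeriod (act g) τ) σ.1 := by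
    intro σ
    rw [hk, pow_one, ← hπ]
    rfl
  have hparts : π.partition.parts = ρ.partition.parts := parts_congr e π ρ fun x => by
    show e (π x) = e (π (e.symm (e x)))
    rw [e.symm_apply_apply]
  have hpk : p % 3 = 1 ∨ p % 3 = 2 := by
    by_cases h4 : p ^ 1 % 3 = 1
    · rw [pow_one] at h4
      exact Or.inl h4
    · have := Pool.Agent.H89.FrobD.pow_mod_three_ne hp hp3 1 h4
      rw [pow_one] at this
      exact Or.inr this
  have h3 := hr (p % 3) hpk fun ω hω => by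
    have := pow_mod_three_iff hp hp3 hd g hE 1 ω hω
    rw [pow_one, pow_one] at this
    exact this.symm
  rw [hparts] at h3
  exact first_of_parts σ₁ hp hd _ (fun a b c ha hb hc hs => h2 a b c ha hb hc hs) g hE τ ρ hρ (p % 3)
    (by rw [hk, pow_one]) h3

theorem mem_parts {X : Type*} [Fintype X] [DecidableEq X] (π : Equiv.Perm X) (x : X) :
    Function.minimalPeriod π x ∈ π.partition.parts := by
  have hpos : 0 < Function.minimalPeriod π x := by
    refine Function.IsPeriodicPt.minimalPeriod_pos (orderOf_pos π) ?_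
    rw [Pool.Agent.H89.FrobD.periodic_iff, pow_orderOf_eq_one]
    rfl
  have h1 := Pool.Agent.H89.FrobD.perm_count π _ hpos
  rw [← Multiset.count_pos]
  by_contra h0
  have h2 : π.partition.parts.count (Function.minimalPeriod π x) = 0 := by omega
  rw [h2, mul_zero] at h1
  have h3 := Finset.card_eq_zero.1 h1.symm
  have h4 : x ∈ Finset.univ.filter (fun y => Function.minimalPeriod π y = Function.minimalPeriod π x) :=
    Finset.mem_filter.2 ⟨Finset.mem_univ x, rfl⟩
  rw [h3] at h4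
  exact absurd h4 (Finset.notMem_empty x)

/-- a long orbit of odd length blocks -/
theorem not_splitsN_of_long {M : Multiset ℕ} {r k : ℕ} (hk : k ∈ M) (hbig : M.sum < 2 * k)
    (hodd : r = 2 → Odd k) : ¬ SplitsN r M := by
  rintro ⟨A, B, C, h0, ⟨a, ha, ha'⟩, ⟨b, hb, hb'⟩, -, hC, hC'⟩
  have hs : M.sum = A.sum + B.sum + C.sum := by
    rw [h0, Multiset.sum_add, Multiset.sum_add]
  have hle : ∀ T : Multiset ℕ, k ∈ T → k ≤ T.sum := fun T hT => Multiset.le_sum_of_mem hT
  have hid : ∀ T : Multiset ℕ, (T.map id).sum = T.sum := fun T => by rw [Multiset.map_id]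
  have hA : A.sum = (a 0).sum + (a 1).sum + (a 2).sum := by
    rw [ha, Fin.sum_univ_three, Multiset.sum_add, Multiset.sum_add]
  have hB : B.sum = (b 0).sum + (b 1).sum := by
    rw [hb, Fin.sum_univ_two, Multiset.sum_add]
  have ha1 := ha' 0 1
  have ha2 := ha' 0 2
  have hb1 := hb' 0 1
  rw [hid, hid] at ha1 ha2 hb1
  rw [h0, Multiset.mem_add, Multiset.mem_add] at hk
  rcases hk with (hk | hk) | hk
  · rw [ha, Fin.sum_univ_three, Multiset.mem_add, Multiset.mem_add] at hk
    rcases hk with (hk | hk) | hk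
    · have := hle _ hk
      omega
    · have := hle _ hk
      omega
    · have := hle _ hk
      omega
  · rw [hb, Fin.sum_univ_two, Multiset.mem_add] at hk
    rcases hk with hk | hk
    · have := hle _ hk
      omega
    · have := hle _ hk
      omega
  · by_cases hr : r = 2
    · exact (Nat.not_even_iff_odd.2 (hodd hr)) (hC k hk)
    · rw [hC' hr] at hk
      exact absurd hk (Multiset.notMem_zero k)

/-- the elements with a long orbit of odd length -/
theorem long_lower {K : Type} [Field K] [NumberField K] (σ₁ : K →ₐ[ℚ] L) :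
    LowerDirichlet {p | FC K p}
      ((Nat.card {g : Gal(L/ℚ) // ∃ s : K →ₐ[ℚ] L,
          Odd (Function.minimalPeriod (fun t : K →ₐ[ℚ] L => (g : L →ₐ[ℚ] L).comp t) s) ∧
          Module.finrank ℚ K < 2 * Function.minimalPeriod (fun t : K →ₐ[ℚ] L => (g : L →ₐ[ℚ] L).comp t) s} : ℝ) /
        (Module.finrank ℚ L : ℝ)) := by
  classical
  have h1 := abs_lower σ₁ {g : Gal(L/ℚ) | ∃ s : K →ₐ[ℚ] L,
          Odd (Function.minimalPeriod (fun t : K →ₐ[ℚ] L => (g : L →ₐ[ℚ] L).comp t) s) ∧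
          Module.finrank ℚ K < 2 * Function.minimalPeriod (fun t : K →ₐ[ℚ] L => (g : L →ₐ[ℚ] L).comp t) s} ?_
  · exact h1
  · rintro g ⟨s, hs1, hs2⟩
    refine ⟨inferInstance, inferInstance, actP K g, fun σ => rfl, fun r _ _ => ?_⟩
    refine not_splitsN_of_long (mem_parts (actP K g) s) ?_ fun _ => hs1
    have hcard : Fintype.card (K →ₐ[ℚ] L) ≤ Module.finrank ℚ K := card_algHom_le_finrank ℚ K L |> fun h => by
      rwa [Nat.card_eq_fintype_card] at h
    rw [(actP K g).partition.parts_sum]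
    exact hcard.trans_lt hs2

end H10FG
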