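import Pool.Agent.H10.FG.Solv

/-!
# FG QBase: quartic fields, preparations

* `exists_L`: every number field embeds in a Galois extension of `ℚ` which contains `ω`;
* the elements of the Galois group which move `ω`;
* multisets of sum `4`.
-/

set_option autoImplicit false
set_option linter.unusedSectionVars false

open scoped Pointwise NumberField
open NumberField IsDedekindDomain

namespace H10FG

open Pool.Agent.H89.FrobD (setE act Emb)
open H85FD (SplitsN Parts)

theorem exists_L (K : Type) [Field K] [NumberField K] : ∃ (L : Type) (_ : Field L) (_ : NumberField L)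
    (_ : IsGalois ℚ L), Nonempty (K →ₐ[ℚ] L) ∧ ∃ ω : L, ω ^ 2 + ω + 1 = 0 := by
  let σ : K →ₐ[ℚ] AlgebraicClosure ℚ := IsAlgClosed.lift
  obtain ⟨ω, hω⟩ : ∃ ω : AlgebraicClosure ℚ, ω ^ 2 + ω + 1 = 0 := by
    obtain ⟨ω, hω⟩ := IsAlgClosed.exists_root (Polynomial.X ^ 2 + Polynomial.X + 1 : Polynomial (AlgebraicClosure ℚ)) (by
      have : (Polynomial.X ^ 2 + Polynomial.X + 1 : Polynomial (AlgebraicClosure ℚ)).degree = 2 := by
        compute_degree!
      rw [this]
      norm_num)
    refine ⟨ω, ?_⟩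
    simpa [Polynomial.IsRoot] using hω
  let E : IntermediateField ℚ (AlgebraicClosure ℚ) := σ.fieldRange ⊔ IntermediateField.adjoin ℚ {ω}
  have halg : Algebra.IsAlgebraic ℚ (AlgebraicClosure ℚ) := AlgebraicClosure.isAlgebraic ℚ
  have hnorm : Normal ℚ (AlgebraicClosure ℚ) :=
    { halg with splits' := fun x => IsAlgClosed.splits _ }
  have hint : IsIntegral ℚ ω := (halg.isAlgebraic ω).isIntegral
  have hfin1 : FiniteDimensional ℚ σ.fieldRange :=
    Module.Finite.equiv (AlgEquiv.ofInjectiveField σ).toLinearEquiv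
  have hfin2 : FiniteDimensional ℚ (IntermediateField.adjoin ℚ {ω}) :=
    IntermediateField.adjoin.finiteDimensional hint
  have hfin : FiniteDimensional ℚ E := inferInstance
  let L : IntermediateField ℚ (AlgebraicClosure ℚ) := IntermediateField.normalClosure ℚ E (AlgebraicClosure ℚ)
  have hLfin : FiniteDimensional ℚ L := inferInstance
  have hL : NumberField L := ⟨⟩
  have hLn : Normal ℚ L := normalClosure.normal ℚ E (AlgebraicClosure ℚ)
  have hLg : IsGalois ℚ L := ⟨⟩
  have hEL : E ≤ L := by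
    have h1 := (E.val).fieldRange_le_normalClosure
    rwa [IntermediateField.fieldRange_val] at h1
  have hωL : ω ∈ L := hEL ((le_sup_right : IntermediateField.adjoin ℚ {ω} ≤ E)
    (IntermediateField.mem_adjoin_simple_self ℚ ω))
  refine ⟨L, inferInstance, hL, hLg, ⟨σ.codRestrict L.toSubalgebra fun x => ?_⟩, ⟨ω, hωL⟩, ?_⟩
  · exact hEL ((le_sup_left : σ.fieldRange ≤ E) ⟨x, rfl⟩)
  · apply Subtype.ext
    exact hω

section

variable {L : Type} [Field L] [NumberField L] [IsGalois ℚ L] {ω : L} (hω : ω ^ 2 + ω + 1 = 0)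
include hω

/-- the other root -/
theorem move (g : Gal(L/ℚ)) : g ω = ω ∨ g ω = -1 - ω := by
  have h1 : (g ω) ^ 2 + g ω + 1 = 0 := by
    have := congrArg g hω
    simpa using this
  have h2 : (g ω - ω) * (g ω + ω + 1) = 0 := by linear_combination h1 - hω
  rcases mul_eq_zero.1 h2 with h | h
  · exact Or.inl (sub_eq_zero.1 h)
  · right
    linear_combination h

theorem move_mul {g h : Gal(L/ℚ)} (hg : g ω ≠ ω) (hh : h ω ≠ ω) : (g * h) ω = ω := by
  have h1 := (move hω g).resolve_left hg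
  have h2 := (move hω h).resolve_left hh
  show g (h ω) = ω
  rw [h2, map_sub, map_neg, map_one, h1]
  ring

theorem move_mul' {g h : Gal(L/ℚ)} (hg : g ω = ω) (hh : h ω ≠ ω) : (g * h) ω ≠ ω := by
  have h2 := (move hω h).resolve_left hh
  show g (h ω) ≠ ω
  rw [h2, map_sub, map_neg, map_one, hg, ← h2]
  exact hh

/-- half of a set which is stable under a translation which moves `ω` -/
theorem half (S : Set Gal(L/ℚ)) {g₀ : Gal(L/ℚ)} (h₀ : g₀ ω ≠ ω) (hS : ∀ g, g ∈ S → g * g₀ ∈ S) :
    2 * (S ∩ {g | g ω ≠ ω}).ncard = S.ncard := by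
  have hfin : S.Finite := S.toFinite
  have h1 : (S ∩ {g | g ω = ω}).ncard = (S ∩ {g | g ω ≠ ω}).ncard := by
    apply le_antisymm
    · refine Set.ncard_le_ncard_of_injOn (fun g => g * g₀) ?_ ?_ (Set.toFinite _)
      · rintro g ⟨hg, hg'⟩
        exact ⟨hS g hg, move_mul' hω hg' h₀⟩
      · intro a _ b _ hab
        exact mul_right_cancel hab
    · refine Set.ncard_le_ncard_of_injOn (fun g => g * g₀) ?_ ?_ (Set.toFinite _)
      · rintro g ⟨hg, hg'⟩
        exact ⟨hS g hg, move_mul hω hg' h₀⟩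
      · intro a _ b _ hab
        exact mul_right_cancel hab
  have h2 : (S ∩ {g | g ω ≠ ω}).ncard + (S \ {g | g ω ≠ ω}).ncard = S.ncard :=
    Set.ncard_inter_add_ncard_sdiff_eq_ncard S _ hfin
  have h3 : S \ {g | g ω ≠ ω} = S ∩ {g | g ω = ω} := by
    ext g
    simp
  rw [h3, h1] at h2
  omega

end

section

variable {K L : Type} [Field K] [NumberField K] [Field L] [NumberField L] [IsGalois ℚ L]

/-- the elements of the Galois group which fix the embedding `σ` -/
def St (σ : K →ₐ[ℚ] L) : Set Gal(L/ℚ) := {g | act g σ = σ}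

theorem card_St (σ : K →ₐ[ℚ] L) : Module.finrank ℚ K * (St σ).ncard = Module.finrank ℚ L := by
  let _ : MulAction Gal(L/ℚ) (K →ₐ[ℚ] L) :=
    { smul := act
      one_smul := fun σ => Pool.Agent.H89.FrobD.act_one σ
      mul_smul := fun g h σ => Pool.Agent.H89.FrobD.act_mul g h σ }
  have htr : MulAction.IsPretransitive Gal(L/ℚ) (K →ₐ[ℚ] L) :=
    ⟨fun σ τ => Pool.Agent.H89.FrobD.exists_gal σ τ⟩
  have h1 := Nat.card_congr (MulAction.orbitProdStabilizerEquivGroup Gal(L/ℚ) σ)
  rw [Nat.card_prod] at h1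
  have h2 : Nat.card (MulAction.orbit Gal(L/ℚ) σ) = Module.finrank ℚ K := by
    rw [MulAction.orbit_eq_univ, Nat.card_univ, card_emb σ]
  have h3 : Nat.card (MulAction.stabilizer Gal(L/ℚ) σ) = (St σ).ncard := by
    rw [← Nat.card_coe_set_eq]
    rfl
  rw [h2, h3, IsGalois.card_aut_eq_finrank] at h1
  exact h1

/-- an element which fixes `σ` and moves `ω` -/
theorem exists_move {ω : L} (hω : ω ^ 2 + ω + 1 = 0) (hK : ∀ w : K, w ^ 2 + w + 1 ≠ 0) (σ : K →ₐ[ℚ] L) :
    ∃ g : Gal(L/ℚ), act g σ = σ ∧ g ω ≠ ω := by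
  by_contra hcon
  push Not at hcon
  have h1 : ω ∈ IntermediateField.fixedField (IntermediateField.fixingSubgroup σ.fieldRange) := by
    rw [IntermediateField.mem_fixedField_iff]
    intro g hg
    refine hcon g ?_
    ext x
    rw [IntermediateField.mem_fixingSubgroup_iff] at hg
    exact hg (σ x) ⟨x, rfl⟩
  rw [IsGalois.fixedField_fixingSubgroup] at h1
  obtain ⟨w, hw⟩ := h1
  have hw' : σ w = ω := hw
  have h5 : σ (w ^ 2 + w + 1) = σ 0 := by
    rw [map_add, map_add, map_pow, map_one, map_zero, hw']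
    exact hω
  exact hK w (σ.injective h5)

/-- the elements which fix `σ` and move `ω` -/
theorem card_move {ω : L} (hω : ω ^ 2 + ω + 1 = 0) (hK : ∀ w : K, w ^ 2 + w + 1 ≠ 0) (σ : K →ₐ[ℚ] L) :
    2 * Module.finrank ℚ K * (St σ ∩ {g | g ω ≠ ω}).ncard = Module.finrank ℚ L := by
  obtain ⟨g₀, h1, h2⟩ := exists_move hω hK σ
  have h3 := half hω (St σ) h2 fun g hg => by
    show act (g * g₀) σ = σ
    rw [Pool.Agent.H89.FrobD.act_mul, h1]
    exact hg
  rw [← card_St σ, ← h3]
  ring

end

/-- sum `4` and a part `1` -/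
theorem not_splits_two_of_one {M : Multiset ℕ} (hs : M.sum = 4) (h1 : 1 ∈ M) : ¬ SplitsN 2 M := by
  rintro ⟨A, B, C, h0, ⟨a, ha, ha'⟩, ⟨b, hb, hb'⟩, hB, hC, -⟩
  rw [Fin.sum_univ_three] at ha
  rw [Fin.sum_univ_two] at hb
  have hsum : A.sum + B.sum + C.sum = 4 := by
    rw [← Multiset.sum_add, ← Multiset.sum_add, ← h0, hs]
  have e1 : (a 0).sum = (a 1).sum := by
    have := ha' 0 1
    rwa [Multiset.map_id, Multiset.map_id] at this
  have e2 : (a 0).sum = (a 2).sum := by
    have := ha' 0 2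
    rwa [Multiset.map_id, Multiset.map_id] at this
  have e3 : (b 0).sum = (b 1).sum := by
    have := hb' 0 1
    rwa [Multiset.map_id, Multiset.map_id] at this
  have hA : A.sum = 3 * (a 0).sum := by
    rw [ha, Multiset.sum_add, Multiset.sum_add]
    omega
  have hB2 : B.sum = 2 * (b 0).sum := by
    rw [hb, Multiset.sum_add]
    omega
  have hB3 : 3 ∣ (b 0).sum := Multiset.dvd_sum fun k hk => hB rfl k (by
    rw [hb]
    exact Multiset.mem_add.2 (Or.inl hk))
  have hC2 : 2 ∣ C.sum := Multiset.dvd_sum fun k hk => (hC k hk).two_dvd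
  have hA0 : A.sum = 0 := by omega
  have hB0 : B.sum = 0 := by omega
  rw [h0, Multiset.mem_add, Multiset.mem_add] at h1
  rcases h1 with (h1 | h1) | h1
  · have := Multiset.le_sum_of_mem h1
    omega
  · have := Multiset.le_sum_of_mem h1
    omega
  · have := (hC 1 h1).two_dvd
    omega

/-- QUARTIC FIELDS, first form -/
theorem quartic_lower8 {K : Type} [Field K] [NumberField K] (h4 : Module.finrank ℚ K = 4)
    (hK : ∀ w : K, w ^ 2 + w + 1 ≠ 0) : LowerDirichlet {p | FC K p} (1 / 8) := by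
  classical
  obtain ⟨L, _, _, _, ⟨σ⟩, ω, hω⟩ := exists_L K
  have h1 := abs_lower σ (St σ ∩ {g : Gal(L/ℚ) | g ω ≠ ω}) ?_
  · refine h1.mono (fun _ _ h => h) ?_
    have h2 := card_move hω hK σ
    rw [h4] at h2
    have h3 : (0 : ℝ) < (Module.finrank ℚ L : ℝ) := by exact_mod_cast Module.finrank_pos
    rw [le_div_iff₀ h3, ← h2]
    push_cast
    linarith
  · rintro g ⟨hg1, hg2⟩
    refine ⟨inferInstance, inferInstance, actP K g, fun σ => rfl, fun r hr hr' => ?_⟩
    have hr2 : r = 2 := by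
      rcases hr with h | h
      · exact absurd ((hr' ω hω).2 h) hg2
      · exact h
    subst hr2
    refine not_splits_two_of_one ?_ ?_
    · rw [(actP K g).partition.parts_sum, ← Nat.card_eq_fintype_card, card_emb σ, h4]
    · have h5 := mem_parts (actP K g) σ
      have h6 : Function.minimalPeriod (actP K g) σ = 1 :=
        Function.minimalPeriod_eq_one_iff_isFixedPt.2 hg1
      rwa [h6] at h5

end H10FG
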