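import Pool.Agent.H10.FG.QBase

/-!
# FG QGal: quartic fields, the absolute count
-/

set_option autoImplicit false
set_option linter.unusedSectionVars false

open scoped Pointwise NumberField
open NumberField IsDedekindDomain

namespace H10FG

open Pool.Agent.H89.FrobD (act)
open H85FD (SplitsN Parts)

section perm

theorem inv_four : (Finset.univ.filter (fun π : Equiv.Perm (Fin 4) => ∀ x, π x ≠ x ∧ π (π x) = x)).card = 3 := by
  decide

theorem inv_four_le {X : Type*} [Fintype X] [DecidableEq X] (h4 : Fintype.card X = 4) :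
    (Finset.univ.filter (fun π : Equiv.Perm X => ∀ x, π x ≠ x ∧ π (π x) = x)).card ≤ 3 := by
  classical
  let e : X ≃ Fin 4 := Fintype.equivFinOfCardEq h4
  rw [← inv_four]
  refine Finset.card_le_card_of_injOn (fun π => e.permCongr π) ?_ ?_
  · intro π hπ
    have hπ' := (Finset.mem_filter.1 (Finset.mem_coe.1 hπ)).2
    refine Finset.mem_coe.2 (Finset.mem_filter.2 ⟨Finset.mem_univ _, fun x => ?_⟩)
    obtain ⟨h1, h2⟩ := hπ' (e.symm x)
    rw [Equiv.permCongr_apply, Equiv.permCongr_apply, Equiv.symm_apply_apply, h2, Equiv.apply_symm_apply]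
    exact ⟨fun h => h1 (e.injective (h.trans (e.apply_symm_apply x).symm)), rfl⟩
  · intro a _ b _ hab
    exact e.permCongr.injective hab

theorem period_inv {X : Type*} (π : Equiv.Perm X) (x : X) :
    Function.minimalPeriod (π⁻¹ : Equiv.Perm X) x = Function.minimalPeriod π x := by
  rw [Function.minimalPeriod_eq_minimalPeriod_iff]
  intro n
  rw [Function.IsPeriodicPt, Function.IsPeriodicPt, Function.IsFixedPt, Function.IsFixedPt,
    Equiv.Perm.iterate_eq_pow, Equiv.Perm.iterate_eq_pow, inv_pow, Equiv.Perm.inv_eq_iff_eq, eq_comm]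

end perm

section

variable {K L : Type} [Field K] [NumberField K] [Field L] [NumberField L] [IsGalois ℚ L]

/-- the action on the embeddings -/
def actHom (K : Type) [Field K] [NumberField K] : Gal(L/ℚ) →* Equiv.Perm (K →ₐ[ℚ] L) where
  toFun := actP K
  map_one' := rfl
  map_mul' _ _ := rfl

theorem actHom_apply (g : Gal(L/ℚ)) (σ : K →ₐ[ℚ] L) : actHom K g σ = act g σ := rfl

/-- the elements with a fixed embedding -/
def Fx (K L : Type) [Field K] [NumberField K] [Field L] [NumberField L] : Set Gal(L/ℚ) :=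
  {g | ∃ σ : K →ₐ[ℚ] L, act g σ = σ}

/-- the elements with a long orbit -/
def Lg (K L : Type) [Field K] [NumberField K] [Field L] [NumberField L] [IsGalois ℚ L] : Set Gal(L/ℚ) :=
  {g | ∃ σ : K →ₐ[ℚ] L, 3 ≤ Function.minimalPeriod (actHom K g) σ}

/-- the elements which act trivially -/
def Tr (K L : Type) [Field K] [NumberField K] [Field L] [NumberField L] [IsGalois ℚ L] : Set Gal(L/ℚ) :=
  {g | actHom K g = 1}

variable (h4 : Module.finrank ℚ K = 4) (σ₁ : K →ₐ[ℚ] L)
include h4 σ₁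

/-- the elements of type `(2, 2)` -/
theorem card_inv : ((Fx K L ∪ Lg K L)ᶜ).ncard ≤ 3 * (Tr K L).ncard := by
  classical
  have : Fintype (K →ₐ[ℚ] L) := Fintype.ofFinite _
  have : Fintype Gal(L/ℚ) := Fintype.ofFinite _
  have hX : Fintype.card (K →ₐ[ℚ] L) = 4 := by
    rw [← Nat.card_eq_fintype_card, card_emb σ₁, h4]
  rw [Set.ncard_eq_toFinset_card', mul_comm]
  refine (Finset.card_le_mul_card_image_of_maps_to (f := fun g => actHom K g)
    (t := Finset.univ.filter (fun π : Equiv.Perm (K →ₐ[ℚ] L) => ∀ x, π x ≠ x ∧ π (π x) = x)) ?_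
    (Tr K L).ncard ?_).trans (Nat.mul_le_mul_left _ (inv_four_le hX))
  · intro g hg
    rw [Set.mem_toFinset, Set.mem_compl_iff, Set.mem_union, not_or] at hg
    refine Finset.mem_filter.2 ⟨Finset.mem_univ _, fun σ => ⟨fun h => hg.1 ⟨σ, h⟩, ?_⟩⟩
    have h1 : ¬ 3 ≤ Function.minimalPeriod (actHom K g) σ := fun h => hg.2 ⟨σ, h⟩
    have h2 : Function.minimalPeriod (actHom K g) σ ≠ 1 := by
      intro h
      exact hg.1 ⟨σ, Function.minimalPeriod_eq_one_iff_isFixedPt.1 h⟩
    have h3 : 0 < Function.minimalPeriod (actHom K g) σ := by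
      have := mem_parts (actHom K g) σ
      exact (actHom K g).partition.parts_pos this
    have h5 : Function.minimalPeriod (actHom K g) σ = 2 := by omega
    have h6 := Function.isPeriodicPt_minimalPeriod (actHom K g) σ
    rw [h5] at h6
    exact h6
  · intro π _
    rcases Finset.eq_empty_or_nonempty (((Fx K L ∪ Lg K L)ᶜ).toFinset.filter
      (fun g => actHom K g = π)) with h | ⟨g₀, hg₀⟩
    · rw [h, Finset.card_empty]
      exact Nat.zero_le _
    · have h1 := (Finset.mem_filter.1 hg₀).2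
      rw [Set.ncard_eq_toFinset_card']
      refine Finset.card_le_card_of_injOn (fun g => g₀⁻¹ * g) ?_ ?_
      · intro g hg
        have h2 := (Finset.mem_filter.1 (Finset.mem_coe.1 hg)).2
        rw [Finset.mem_coe, Set.mem_toFinset]
        show actHom K (g₀⁻¹ * g) = 1
        rw [map_mul, map_inv, h1, h2, inv_mul_cancel]
      · intro a _ b _ hab
        exact mul_left_cancel hab

omit h4 σ₁ in
/-- two cosets of long elements -/
theorem card_long (h : (Lg K L).Nonempty) : 2 * (Tr K L).ncard ≤ (Lg K L).ncard := by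
  classical
  obtain ⟨g, σ, hσ⟩ := h
  have h1 : ∀ t ∈ Tr K L, g * t ∈ Lg K L ∩ {x | actHom K x = actHom K g} := by
    intro t ht
    have ht' : actHom K t = 1 := ht
    have h2 : actHom K (g * t) = actHom K g := by rw [map_mul, ht', mul_one]
    exact ⟨⟨σ, by rw [h2]; exact hσ⟩, h2⟩
  have h2 : ∀ t ∈ Tr K L, g⁻¹ * t ∈ Lg K L \ {x | actHom K x = actHom K g} := by
    intro t ht
    have ht' : actHom K t = 1 := ht
    have h3 : actHom K (g⁻¹ * t) = (actHom K g)⁻¹ := by rw [map_mul, ht', mul_one, map_inv]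
    refine ⟨⟨σ, by rw [h3, period_inv]; exact hσ⟩, fun h => ?_⟩
    have h4 : (actHom K g)⁻¹ = actHom K g := by
      rw [← h3]
      exact h
    have h5 : Function.IsPeriodicPt (actHom K g) 2 σ := by
      have h7 := inv_mul_cancel (actHom K g)
      rw [h4] at h7
      exact congrArg (fun π : Equiv.Perm (K →ₐ[ℚ] L) => π σ) h7
    have h6 := Function.IsPeriodicPt.minimalPeriod_le (by norm_num) h5
    omega
  have h3 := Set.ncard_inter_add_ncard_sdiff_eq_ncard (Lg K L) {x | actHom K x = actHom K g} (Set.toFinite _)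
  have h4 : (Tr K L).ncard ≤ (Lg K L ∩ {x | actHom K x = actHom K g}).ncard :=
    Set.ncard_le_ncard_of_injOn (fun t => g * t) h1 (fun a _ b _ hab => mul_left_cancel hab) (Set.toFinite _)
  have h5 : (Tr K L).ncard ≤ (Lg K L \ {x | actHom K x = actHom K g}).ncard :=
    Set.ncard_le_ncard_of_injOn (fun t => g⁻¹ * t) h2 (fun a _ b _ hab => mul_left_cancel hab) (Set.toFinite _)
  omega

/-- the blocked elements, absolute -/
def Bl (K L : Type) [Field K] [NumberField K] [Field L] [NumberField L] [IsGalois ℚ L] (ω : L) : Set Gal(L/ℚ) :=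
  (Fx K L ∩ {g | g ω ≠ ω}) ∪ (Lg K L ∩ {g | g ω = ω})

omit h4 in
theorem Bl_split (ω : L) : (Bl K L ω).ncard =
    (Fx K L ∩ {g | g ω ≠ ω}).ncard + (Lg K L ∩ {g | g ω = ω}).ncard := by
  refine Set.ncard_union_eq ?_ (Set.toFinite _) (Set.toFinite _)
  rw [Set.disjoint_left]
  rintro g ⟨-, h1⟩ ⟨-, h2⟩
  exact h1 h2

/-- the count if some trivially acting element moves `ω` -/
theorem count_two {ω : L} (hω : ω ^ 2 + ω + 1 = 0) {g₀ : Gal(L/ℚ)} (h₀ : g₀ ∈ Tr K L) (h₀ω : g₀ ω ≠ ω)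
    (h : (Lg K L).Nonempty ∨ 6 * (Tr K L).ncard ≤ Module.finrank ℚ L) :
    Module.finrank ℚ L ≤ 4 * (Bl K L ω).ncard := by
  classical
  have h₀' : actHom K g₀ = 1 := h₀
  have h1 := half hω (Fx K L) h₀ω (fun g hg => by
    obtain ⟨σ, hσ⟩ := hg
    refine ⟨σ, ?_⟩
    rw [Pool.Agent.H89.FrobD.act_mul]
    have : act g₀ σ = σ := congrArg (fun π : Equiv.Perm (K →ₐ[ℚ] L) => π σ) h₀'
    rw [this, hσ])
  have h2 := half hω (Lg K L) h₀ω (fun g hg => by
    obtain ⟨σ, hσ⟩ := hg
    refine ⟨σ, ?_⟩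
    rw [map_mul, h₀', mul_one]
    exact hσ)
  have h3 := Set.ncard_inter_add_ncard_sdiff_eq_ncard (Lg K L) {g | g ω ≠ ω} (Set.toFinite _)
  have h5 : Lg K L \ {g | g ω ≠ ω} = Lg K L ∩ {g | g ω = ω} := by
    ext g
    simp
  rw [h5] at h3
  have h6 := Bl_split (K := K) σ₁ ω
  have h7 : (Fx K L ∪ Lg K L).ncard + ((Fx K L ∪ Lg K L)ᶜ).ncard = Module.finrank ℚ L := by
    rw [Set.ncard_add_ncard_compl, IsGalois.card_aut_eq_finrank]
  have h8 := Set.ncard_union_le (Fx K L) (Lg K L)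
  have h9 := card_inv (L := L) h4 σ₁
  have h10 := card_St σ₁
  rw [h4] at h10
  have h11 : (St σ₁).ncard ≤ (Fx K L).ncard :=
    Set.ncard_le_ncard (fun g hg => ⟨σ₁, hg⟩) (Set.toFinite _)
  rcases h with h | h
  · have h12 := card_long h
    omega
  · omega

/-- the count if every element which acts trivially fixes `ω` -/
theorem count_one {ω : L} (hω : ω ^ 2 + ω + 1 = 0) (hK : ∀ w : K, w ^ 2 + w + 1 ≠ 0)
    (h : ∀ g ∈ Tr K L, g ω = ω) : Module.finrank ℚ L ≤ 4 * (Bl K L ω).ncard := by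
  classical
  have : Fintype (K →ₐ[ℚ] L) := Fintype.ofFinite _
  have : Fintype Gal(L/ℚ) := Fintype.ofFinite _
  have hX : Fintype.card (K →ₐ[ℚ] L) = 4 := by
    rw [← Nat.card_eq_fintype_card, card_emb σ₁, h4]
  -- double counting
  have h1 : ∑ σ : K →ₐ[ℚ] L, (St σ ∩ {g : Gal(L/ℚ) | g ω ≠ ω}).ncard =
      ∑ g ∈ (Fx K L ∩ {g : Gal(L/ℚ) | g ω ≠ ω}).toFinset,
        (Finset.univ.filter (fun σ : K →ₐ[ℚ] L => act g σ = σ)).card := by
    have h2 : ∀ σ : K →ₐ[ℚ] L, (St σ ∩ {g : Gal(L/ℚ) | g ω ≠ ω}).ncard =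
        ((Fx K L ∩ {g : Gal(L/ℚ) | g ω ≠ ω}).toFinset.filter (fun g => act g σ = σ)).card := by
      intro σ
      rw [Set.ncard_eq_toFinset_card']
      congr 1
      ext g
      rw [Set.mem_toFinset, Finset.mem_filter, Set.mem_toFinset]
      constructor
      · rintro ⟨h3, h4⟩
        exact ⟨⟨⟨σ, h3⟩, h4⟩, h3⟩
      · rintro ⟨⟨_, h4⟩, h3⟩
        exact ⟨h3, h4⟩
    rw [Finset.sum_congr rfl fun σ _ => h2 σ]
    simp_rw [Finset.card_filter]
    exact Finset.sum_comm
  have h2 : ∀ g ∈ (Fx K L ∩ {g : Gal(L/ℚ) | g ω ≠ ω}).toFinset,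
      (Finset.univ.filter (fun σ : K →ₐ[ℚ] L => act g σ = σ)).card ≤ 2 := by
    intro g hg
    rw [Set.mem_toFinset] at hg
    have h3 : actHom K g ≠ 1 := fun h' => hg.2 (h g h')
    have h5 : (actHom K g).support.card ≠ 0 := by
      rw [Ne, Equiv.Perm.card_support_eq_zero]
      exact h3
    have h6 := Equiv.Perm.card_support_ne_one (actHom K g)
    have h7 : (Finset.univ.filter (fun σ : K →ₐ[ℚ] L => act g σ = σ)) = (actHom K g).supportᶜ := by
      ext σ
      rw [Finset.mem_filter, Finset.mem_compl, Equiv.Perm.mem_support, not_not]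
      exact ⟨fun h => h.2, fun h => ⟨Finset.mem_univ _, h⟩⟩
    rw [h7, Finset.card_compl, hX]
    omega
  have h3 : ∀ σ : K →ₐ[ℚ] L, 8 * (St σ ∩ {g : Gal(L/ℚ) | g ω ≠ ω}).ncard = Module.finrank ℚ L := by
    intro σ
    have := card_move hω hK σ
    rw [h4] at this
    omega
  have h5 : 8 * ∑ σ : K →ₐ[ℚ] L, (St σ ∩ {g : Gal(L/ℚ) | g ω ≠ ω}).ncard = 4 * Module.finrank ℚ L := by
    rw [Finset.mul_sum, Finset.sum_congr rfl fun σ _ => h3 σ, Finset.sum_const, Finset.card_univ, hX, smul_eq_mul]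
  have h6 := Finset.sum_le_card_nsmul _ _ 2 h2
  rw [← h1, smul_eq_mul, ← Set.ncard_eq_toFinset_card'] at h6
  have h7 := Bl_split (K := K) σ₁ ω
  omega

end

end H10FG
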