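import Pool.Agent.H10.FG.Base

/-!
# FG Quart: quartic fields

`quartic_lower`: `K` of degree `4` without primitive cube roots of unity: the first case holds over `K` for
exponents of lower Dirichlet density at least `1 / 4`.
-/

set_option autoImplicit false
set_option linter.unusedSectionVars false

open scoped Pointwise NumberField
open NumberField IsDedekindDomain

namespace H10FG

open Pool.Agent.H89.FrobD (act Emb)
open H85FD (SplitsN Parts)

/-- sum at most `2` and a part `1` -/
theorem not_splits_two_small {M : Multiset ℕ} (hs : M.sum ≤ 2) (h1 : 1 ∈ M) : ¬ SplitsN 2 M := by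
  rintro ⟨A, B, C, h0, ⟨a, ha, ha'⟩, ⟨b, hb, hb'⟩, hB, hC, -⟩
  rw [Fin.sum_univ_three] at ha
  rw [Fin.sum_univ_two] at hb
  have hsum : A.sum + B.sum + C.sum ≤ 2 := by
    rw [← Multiset.sum_add, ← Multiset.sum_add, ← h0]
    exact hs
  have e1 : (a 0).sum = (a 1).sum := by
    have := ha' 0 1
    rwa [Multiset.map_id, Multiset.map_id] at this
  have e2 : (a 0).sum = (a 2).sum := by
    have := ha' 0 2
    rwa [Multiset.map_id, Multiset.map_id] at this
  have e3 : (b 0).sum = (b 1).sum := by
    have := hb' 0 1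
    rwa [Multiset.map_id, Multiset.map_id] at this
  have hA : A.sum = 3 * (a 0).sum := by
    rw [ha, Multiset.sum_add, Multiset.sum_add]
    omega
  have hB2 : B.sum = 2 * (b 0).sum := by
    rw [hb, Multiset.sum_add]
    omega
  have hB3 : 3 ∣ (b 0).sum := Multiset.dvd_sum fun k hk => hB rfl k (by
    rw [hb]
    exact Multiset.mem_add.2 (Or.inl hk))
  have hA0 : A.sum = 0 := by omega
  have hB0 : B.sum = 0 := by omega
  rw [h0, Multiset.mem_add, Multiset.mem_add] at h1
  rcases h1 with (h1 | h1) | h1
  · have := Multiset.le_sum_of_mem h1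
    omega
  · have := Multiset.le_sum_of_mem h1
    omega
  · have := (hC 1 h1).two_dvd
    omega

section

variable {K L : Type} [Field K] [NumberField K] [Field L] [NumberField L] [IsGalois ℚ L]

theorem le_quarter {C : Set Gal(L/ℚ)} (h : Module.finrank ℚ L ≤ 4 * C.ncard) :
    (1 : ℝ) / 4 ≤ (C.ncard : ℝ) / (Module.finrank ℚ L : ℝ) := by
  have h3 : (0 : ℝ) < (Module.finrank ℚ L : ℝ) := by exact_mod_cast Module.finrank_pos
  rw [le_div_iff₀ h3]
  have h4 : (Module.finrank ℚ L : ℝ) ≤ 4 * (C.ncard : ℝ) := by exact_mod_cast h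
  linarith

variable (h4 : Module.finrank ℚ K = 4) (σ₁ : K →ₐ[ℚ] L) {ω : L} (hω : ω ^ 2 + ω + 1 = 0)
include h4 σ₁ hω

/-- the absolute criterion -/
theorem quartic_abs (h : Module.finrank ℚ L ≤ 4 * (Bl K L ω).ncard) :
    LowerDirichlet {p | FC K p} (1 / 4) := by
  classical
  refine (abs_lower σ₁ (Bl K L ω) ?_).mono (fun _ _ h => h) (le_quarter h)
  intro g hg
  have hsum : (actP K g).partition.parts.sum = 4 := by
    rw [(actP K g).partition.parts_sum, ← Nat.card_eq_fintype_card, card_emb σ₁, h4]
  refine ⟨inferInstance, inferInstance, actP K g, fun σ => rfl, fun r hr hr' => ?_⟩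
  rcases hg with ⟨⟨σ, hσ⟩, hg2⟩ | ⟨⟨σ, hσ⟩, hg2⟩
  · have hr2 : r = 2 := by
      rcases hr with h | h
      · exact absurd ((hr' ω hω).2 h) hg2
      · exact h
    subst hr2
    refine not_splits_two_of_one hsum ?_
    have h5 := mem_parts (actP K g) σ
    have h6 : Function.minimalPeriod (actP K g) σ = 1 :=
      Function.minimalPeriod_eq_one_iff_isFixedPt.2 hσ
    rwa [h6] at h5
  · have hr1 : r = 1 := (hr' ω hω).1 hg2
    subst hr1
    refine not_splitsN_of_long (mem_parts (actP K g) σ) ?_ fun h => by omega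
    rw [hsum]
    have : 3 ≤ Function.minimalPeriod (actP K g) σ := hσ
    omega

/-- the case of the four group -/
theorem quartic_four (hL : ¬ (Lg K L).Nonempty) (hN : Module.finrank ℚ L < 6 * (Tr K L).ncard)
    {g₀ : Gal(L/ℚ)} (h₀ : g₀ ∈ Tr K L) (h₀ω : g₀ ω ≠ ω) : LowerDirichlet {p | FC K p} (1 / 4) := by
  classical
  have h₀' : actHom K g₀ = 1 := h₀
  -- the stabiliser acts trivially
  have hSt := card_St σ₁
  rw [h4] at hSt
  have hTSt : Tr K L ⊆ St σ₁ := fun g hg =>
    congrArg (fun π : Equiv.Perm (K →ₐ[ℚ] L) => π σ₁) (show actHom K g = 1 from hg)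
  have hSt' : ∀ g, act g σ₁ = σ₁ → actHom K g = 1 := by
    intro g hg
    by_contra hcon
    have h1 := Set.ncard_inter_add_ncard_sdiff_eq_ncard (St σ₁) (Tr K L) (Set.toFinite _)
    rw [Set.inter_eq_self_of_subset_right hTSt] at h1
    have h2 : (Tr K L).ncard ≤ (St σ₁ \ Tr K L).ncard := by
      refine Set.ncard_le_ncard_of_injOn (fun t => g * t) (fun t ht => ⟨?_, fun h => hcon ?_⟩)
        (fun a _ b _ hab => mul_left_cancel hab) (Set.toFinite _)
      · show act (g * t) σ₁ = σ₁
        rw [Pool.Agent.H89.FrobD.act_mul]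
        have h3 : act t σ₁ = σ₁ := hTSt ht
        rw [h3, hg]
      · have h3 : actHom K (g * t) = 1 := h
        have h5 : actHom K t = 1 := ht
        rwa [map_mul, h5, mul_one] at h3
    omega
  have hTN : 4 * (Tr K L).ncard = Module.finrank ℚ L := by
    have h1 : St σ₁ = Tr K L := Set.Subset.antisymm (fun g hg => hSt' g hg) hTSt
    rw [← h1]
    exact hSt
  -- all elements are involutions
  have hsq : ∀ g : Gal(L/ℚ), actHom K g * actHom K g = 1 := by
    intro g
    ext1 σ
    have h1 : ¬ 3 ≤ Function.minimalPeriod (actHom K g) σ := fun h => hL ⟨g, σ, h⟩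
    have h3 : 0 < Function.minimalPeriod (actHom K g) σ :=
      (actHom K g).partition.parts_pos (mem_parts (actHom K g) σ)
    have h5 : Function.minimalPeriod (actHom K g) σ ∣ 2 := by
      have : Function.minimalPeriod (actHom K g) σ = 1 ∨ Function.minimalPeriod (actHom K g) σ = 2 := by omega
      rcases this with h | h <;> rw [h]
      exact one_dvd _
    exact Function.isPeriodicPt_iff_minimalPeriod_dvd.2 h5
  have hcomm : ∀ g h : Gal(L/ℚ), actHom K g * actHom K h = actHom K h * actHom K g := by
    intro g h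
    have h1 := hsq (g * h)
    rw [map_mul] at h1
    have h2 := hsq g
    have h3 := hsq h
    calc actHom K g * actHom K h = 1 * (actHom K g * actHom K h) * 1 := by group
      _ = (actHom K h * actHom K h) * (actHom K g * actHom K h) * (actHom K g * actHom K g) := by rw [h2, h3]
      _ = actHom K h * ((actHom K h * actHom K g) * (actHom K h * actHom K g)) * actHom K g := by group
      _ = actHom K h * actHom K g := by
        have h5 := hsq (h * g)
        rw [map_mul] at h5
        rw [h5, mul_one]
  -- complex conjugation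
  obtain ⟨ι⟩ : Nonempty (L →+* ℂ) := inferInstance
  obtain ⟨c, hc⟩ := exists_conj ι
  obtain ⟨h, hh1, hhω, hhc⟩ : ∃ h : Gal(L/ℚ), actHom K h ≠ 1 ∧ h ω = ω ∧
      (actHom K c = 1 ∨ actHom K c = actHom K h) := by
    obtain ⟨h, hh1, hhc⟩ : ∃ h : Gal(L/ℚ), actHom K h ≠ 1 ∧ (actHom K c = 1 ∨ actHom K c = actHom K h) := by
      by_cases h1 : actHom K c = 1
      · by_contra hcon
        push Not at hcon
        have h2 : Tr K L = Set.univ := by
          ext g
          refine ⟨fun _ => Set.mem_univ g, fun _ => ?_⟩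
          by_contra h3
          exact (hcon g h3).1 h1
        have h3 : (Tr K L).ncard = Module.finrank ℚ L := by
          rw [h2, Set.ncard_univ, IsGalois.card_aut_eq_finrank]
        have h5 : 0 < Module.finrank ℚ L := Module.finrank_pos
        omega
      · exact ⟨c, h1, Or.inr rfl⟩
    by_cases h2 : h ω = ω
    · exact ⟨h, hh1, h2, hhc⟩
    · refine ⟨h * g₀, ?_, move_mul hω h2 h₀ω, ?_⟩
      · rwa [map_mul, h₀', mul_one]
      · rwa [map_mul, h₀', mul_one]
  -- the subgroup
  let U : Subgroup Gal(L/ℚ) :=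
    { carrier := {g | actHom K g = 1 ∨ actHom K g = actHom K h}
      one_mem' := Or.inl (map_one _)
      mul_mem' := by
        rintro a b (ha | ha) (hb | hb)
        · left
          rw [map_mul, ha, hb, mul_one]
        · right
          rw [map_mul, ha, hb, one_mul]
        · right
          rw [map_mul, ha, hb, mul_one]
        · left
          rw [map_mul, ha, hb, hsq h]
      inv_mem' := by
        rintro a (ha | ha)
        · left
          rw [map_inv, ha, inv_one]
        · right
          rw [map_inv, ha]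
          exact inv_eq_of_mul_eq_one_left (hsq h) }
  have hU : ∀ g, g ∈ U ↔ (actHom K g = 1 ∨ actHom K g = actHom K h) := fun g => Iff.rfl
  have hUcard : Nat.card U = 2 * (Tr K L).ncard := by
    have h1 : (U : Set Gal(L/ℚ)) = Tr K L ∪ {g | actHom K g = actHom K h} := rfl
    have h2 : ({g : Gal(L/ℚ) | actHom K g = actHom K h}).ncard = (Tr K L).ncard := by
      apply le_antisymm
      · refine Set.ncard_le_ncard_of_injOn (fun g => h⁻¹ * g) ?_ (fun a _ b _ hab => mul_left_cancel hab)
          (Set.toFinite _)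
        intro g hg
        have hg' : actHom K g = actHom K h := hg
        show actHom K (h⁻¹ * g) = 1
        rw [map_mul, hg', map_inv, inv_mul_cancel]
      · refine Set.ncard_le_ncard_of_injOn (fun g => h * g) ?_ (fun a _ b _ hab => mul_left_cancel hab)
          (Set.toFinite _)
        intro g hg
        have hg' : actHom K g = 1 := hg
        show actHom K (h * g) = actHom K h
        rw [map_mul, hg', mul_one]
    have h3 : Nat.card U = (U : Set Gal(L/ℚ)).ncard := Nat.card_coe_set_eq _
    rw [h3, h1, Set.ncard_union_eq _ (Set.toFinite _) (Set.toFinite _), h2, two_mul]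
    rw [Set.disjoint_left]
    intro g hg hg'
    have e1 : actHom K g = 1 := hg
    have e2 : actHom K g = actHom K h := hg'
    exact hh1 (e2.symm.trans e1)
  have hUconj : ∀ Φ : L →+* ℂ, ∀ d : Gal(L/ℚ), (∀ x, Φ (d x) = (starRingEnd ℂ) (Φ x)) → d ∈ U := by
    intro Φ d hd
    obtain ⟨s, hs⟩ := exists_rel ι Φ
    have h1 : s * d = c * s := by
      ext x
      have h2 : ι (s (d x)) = ι (c (s x)) := by
        rw [← hs, hd, hs, hc]
      exact ι.injective h2
    have h2 : actHom K s * actHom K d = actHom K s * actHom K c := by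
      rw [← map_mul, h1, map_mul, hcomm]
    have h3 : actHom K d = actHom K c := mul_left_cancel h2
    rw [hU, h3]
    exact hhc
  obtain ⟨F, hF1, hF2, hF3⟩ := base_field σ₁ U (fun g hg => Or.inl (hSt' g hg)) (by omega) hUconj
  let τ : F →ₐ[ℚ] L := σ₁.comp F.val
  have hF3' : ∀ g ∈ U, Function.minimalPeriod (act g) τ = 1 := fun g hg =>
    Function.minimalPeriod_eq_one_iff_isFixedPt.2 ((hF3 g).2 hg)
  have hemb : ∀ σ : Emb K τ, σ.1 = σ₁ ∨ σ.1 = act h σ₁ := by
    intro σ
    obtain ⟨g, hg⟩ := Pool.Agent.H89.FrobD.exists_gal σ₁ σ.1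
    have h1 : g ∈ U := by
      rw [← hF3]
      ext x
      have h2 := σ.2 x
      rw [← hg] at h2
      exact h2
    rcases h1 with h1 | h1
    · left
      rw [← hg]
      exact congrArg (fun π : Equiv.Perm (K →ₐ[ℚ] L) => π σ₁) h1
    · right
      rw [← hg]
      exact congrArg (fun π : Equiv.Perm (K →ₐ[ℚ] L) => π σ₁) h1
  have : Fintype (Emb K τ) := Fintype.ofFinite _
  have hcardE : Fintype.card (Emb K τ) ≤ 2 := by
    have h1 : Fintype.card (Emb K τ) ≤ Fintype.card Bool := by
      refine Fintype.card_le_of_injective (fun σ => decide (σ.1 = σ₁)) ?_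
      intro σ σ' hσ
      have h2 : (σ.1 = σ₁) ↔ (σ'.1 = σ₁) := by
        have := decide_eq_decide.1 hσ
        exact this
      apply Subtype.ext
      rcases hemb σ with h3 | h3
      · rw [h3, h2.1 h3]
      · rcases hemb σ' with h5 | h5
        · rw [h5, h2.2 h5]
        · rw [h3, h5]
    rwa [Fintype.card_bool] at h1
  let σ₀ : Emb K τ := ⟨σ₁, fun x => rfl⟩
  have hperm : ∀ g ∈ U, ∃ π : Equiv.Perm (Emb K τ), ∀ σ, (π σ).1 = act g σ.1 := by
    intro g hg
    have hst : ∀ k ∈ U, ∀ σ : Emb K τ, ∀ x, (act k σ.1) (algebraMap F K x) = τ x := by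
      intro k hk σ x
      have h1 := (hF3 k).2 hk
      have h2 : k (τ x) = τ x := congrArg (fun χ : F →ₐ[ℚ] L => χ x) h1
      show k (σ.1 (algebraMap F K x)) = τ x
      rw [σ.2 x, h2]
    refine ⟨⟨fun σ => ⟨act g σ.1, hst g hg σ⟩, fun σ => ⟨act g⁻¹ σ.1, hst g⁻¹ (U.inv_mem hg) σ⟩, ?_, ?_⟩,
      fun σ => rfl⟩
    · intro σ
      apply Subtype.ext
      show act g⁻¹ (act g σ.1) = σ.1
      rw [← Pool.Agent.H89.FrobD.act_mul, inv_mul_cancel, Pool.Agent.H89.FrobD.act_one]
    · intro σ
      apply Subtype.ext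
      show act g (act g⁻¹ σ.1) = σ.1
      rw [← Pool.Agent.H89.FrobD.act_mul, mul_inv_cancel, Pool.Agent.H89.FrobD.act_one]
  let C : Set Gal(L/ℚ) := {g | (actHom K g = 1 ∧ g ω ≠ ω) ∨ (actHom K g = actHom K h ∧ g ω = ω)}
  have hCcard : (Tr K L).ncard ≤ C.ncard := by
    refine Set.ncard_le_ncard_of_injOn (fun t => if t ω = ω then h * t else t) ?_ ?_ (Set.toFinite _)
    · intro t ht
      have ht' : actHom K t = 1 := ht
      show (if t ω = ω then h * t else t) ∈ C
      by_cases h1 : t ω = ω
      · rw [if_pos h1]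
        refine Or.inr ⟨?_, ?_⟩
        · rw [map_mul, ht', mul_one]
        · show h (t ω) = ω
          rw [h1, hhω]
      · rw [if_neg h1]
        exact Or.inl ⟨ht', h1⟩
    · intro a ha b hb hab
      have ha' : actHom K a = 1 := ha
      have hb' : actHom K b = 1 := hb
      have hab' : (if a ω = ω then h * a else a) = (if b ω = ω then h * b else b) := hab
      by_cases h1 : a ω = ω
      · by_cases h2 : b ω = ω
        · rw [if_pos h1, if_pos h2] at hab'
          exact mul_left_cancel hab'
        · rw [if_pos h1, if_neg h2] at hab'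
          exfalso
          have := congrArg (actHom K) hab'
          rw [map_mul, ha', hb', mul_one] at this
          exact hh1 this
      · by_cases h2 : b ω = ω
        · rw [if_neg h1, if_pos h2] at hab'
          exfalso
          have := congrArg (actHom K) hab'
          rw [map_mul, ha', hb', mul_one] at this
          exact hh1 this.symm
        · rw [if_neg h1, if_neg h2] at hab'
          exact hab'
  refine (blocked_lower σ₁ C ?_).mono (fun _ _ h => h) (le_quarter (by omega))
  intro g hg
  have hgU : g ∈ U := by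
    rcases hg with hg | hg
    · exact Or.inl hg.1
    · exact Or.inr hg.1
  obtain ⟨π, hπ⟩ := hperm g hgU
  refine ⟨F, hF1, hF2, τ, inferInstance, inferInstance, π, ?_, ?_⟩
  · intro σ
    rw [hF3' g hgU, pow_one]
    exact hπ σ
  · intro r hr hr'
    rw [hF3' g hgU, pow_one] at hr'
    have hsum : π.partition.parts.sum ≤ 2 := by
      rw [π.partition.parts_sum]
      exact hcardE
    rcases hg with ⟨hg1, hg2⟩ | ⟨hg1, hg2⟩
    · have hr2 : r = 2 := by
        rcases hr with h | h
        · exact absurd ((hr' ω hω).2 h) hg2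
        · exact h
      subst hr2
      refine not_splits_two_small hsum ?_
      have h5 := mem_parts π σ₀
      have h6 : Function.minimalPeriod π σ₀ = 1 := by
        refine Function.minimalPeriod_eq_one_iff_isFixedPt.2 (Subtype.ext ?_)
        rw [hπ]
        exact congrArg (fun π : Equiv.Perm (K →ₐ[ℚ] L) => π σ₁) hg1
      rwa [h6] at h5
    · have hr1 : r = 1 := (hr' ω hω).1 hg2
      subst hr1
      refine not_splitsN_of_long (mem_parts π σ₀) ?_ fun h => by omega
      have h6 : Function.minimalPeriod π σ₀ ≠ 1 := by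
        intro h7
        have h8 := Function.minimalPeriod_eq_one_iff_isFixedPt.1 h7
        have h9 : (π σ₀).1 = σ₁ := congrArg Subtype.val h8
        rw [hπ] at h9
        have h10 := hSt' g h9
        exact hh1 (hg1.symm.trans h10)
      have h7 : 0 < Function.minimalPeriod π σ₀ := π.partition.parts_pos (mem_parts π σ₀)
      omega

end

/-- QUARTIC FIELDS -/
theorem quartic_lower {K : Type} [Field K] [NumberField K] (h4 : Module.finrank ℚ K = 4)
    (hK : ∀ w : K, w ^ 2 + w + 1 ≠ 0) : LowerDirichlet {p | FC K p} (1 / 4) := by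
  classical
  obtain ⟨L, _, _, _, ⟨σ₁⟩, ω, hω⟩ := exists_L K
  by_cases h1 : ∀ g ∈ Tr K L, g ω = ω
  · exact quartic_abs h4 σ₁ hω (count_one h4 σ₁ hω hK h1)
  · push Not at h1
    obtain ⟨g₀, h₀, h₀ω⟩ := h1
    by_cases h2 : (Lg K L).Nonempty ∨ 6 * (Tr K L).ncard ≤ Module.finrank ℚ L
    · exact quartic_abs h4 σ₁ hω (count_two h4 σ₁ hω h₀ h₀ω h2)
    · push Not at h2
      exact quartic_four h4 σ₁ hω (Set.not_nonempty_iff_eq_empty.2 h2.1) h2.2 h₀ h₀ω

end H10FG
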