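import Pool.Agent.H10.FG.Main
import Pool.Agent.H93.FD.Sn

/-!
# FG Solv: fields of odd prime degree with a solvable Galois closure

`fixed_unique` (Galois): in a solvable transitive group of prime degree every element `≠ 1` has at most one fixed
point.  `solv_lower`: `K` of odd prime degree with a solvable Galois closure `L`: the first case holds over `K` for
exponents of lower Dirichlet density at least `1 - 1 / [L : ℚ]`.
-/

set_option autoImplicit false
set_option linter.unusedSectionVars false

open scoped Pointwise NumberField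
open NumberField IsDedekindDomain

namespace H10FG

open Pool.Agent.H89.FrobD (setE act Emb)
open H85FD (SplitsN Parts)

/-- GALOIS: an element of a solvable transitive group of prime degree which fixes two points is trivial -/
theorem fixed_unique {G X : Type*} [Group G] [MulAction G X] [FaithfulSMul G X]
    [MulAction.IsPretransitive G X] [Group.IsSolvable G] (hp : (Nat.card X).Prime) (g : G) (hg : g ≠ 1) (x y : X)
    (hx : g • x = x) (hy : g • y = y) : x = y := by
  classical
  by_contra hxy
  -- an abelian normal subgroup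
  obtain ⟨N, hNn, hN1, hNc⟩ : ∃ N : Subgroup G, N.Normal ∧ N ≠ ⊥ ∧ ∀ a ∈ N, ∀ b ∈ N, a * b = b * a := by
    have hex := (‹Group.IsSolvable G›).solvable
    have h0 := Nat.find_spec hex
    rcases Nat.eq_zero_or_pos (Nat.find hex) with h1 | h1
    · exfalso
      rw [h1, derivedSeries_zero] at h0
      apply hg
      have : g ∈ (⊤ : Subgroup G) := Subgroup.mem_top g
      rw [h0, Subgroup.mem_bot] at this
      exact this
    · obtain ⟨n, hn⟩ : ∃ n, Nat.find hex = n + 1 := ⟨Nat.find hex - 1, by omega⟩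
      refine ⟨derivedSeries G n, derivedSeries_normal G n, Nat.find_min hex (by omega), ?_⟩
      rw [hn, derivedSeries_succ, Subgroup.commutator_eq_bot_iff_le_centralizer] at h0
      intro a ha b hb
      exact (Subgroup.mem_centralizer_iff.1 (h0 hb)) a ha
  have hprim : MulAction.IsPreprimitive G X := MulAction.IsPreprimitive.of_prime_card hp
  have htr : MulAction.IsPretransitive N X := by
    refine MulAction.IsQuasiPreprimitive.isPretransitive_of_normal (G := G) (X := X) ?_
    intro h
    apply hN1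
    rw [Subgroup.eq_bot_iff_forall]
    intro a ha
    apply FaithfulSMul.eq_of_smul_eq_smul (α := X)
    intro z
    have hz : z ∈ MulAction.fixedPoints N X := by
      rw [h]
      exact Set.mem_univ z
    rw [one_smul]
    exact hz ⟨a, ha⟩
  -- regular
  have hreg : ∀ a ∈ N, ∀ z : X, a • z = z → a = 1 := by
    intro a ha z haz
    apply FaithfulSMul.eq_of_smul_eq_smul (α := X)
    intro w
    obtain ⟨⟨b, hb⟩, hbw⟩ := MulAction.exists_smul_eq N z w
    have hbw' : b • z = w := hbw
    rw [one_smul, ← hbw', smul_smul, hNc a ha b hb, ← smul_smul, haz]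
  obtain ⟨⟨n, hn⟩, hnx⟩ := MulAction.exists_smul_eq N x y
  have hnx' : n • x = y := hnx
  have hn1 : n ≠ 1 := by
    rintro rfl
    apply hxy
    rw [← hnx', one_smul]
  -- `g` commutes with `n`
  have hgi : g⁻¹ • x = x := by
    rw [inv_smul_eq_iff, hx]
  have hcomm : g * n * g⁻¹ = n := by
    have h1 : n⁻¹ * (g * n * g⁻¹) ∈ N := N.mul_mem (N.inv_mem hn) (hNn.conj_mem n hn g)
    have h2 := hreg _ h1 x (by
      rw [mul_smul, mul_smul, mul_smul, hgi, hnx', hy, ← hnx', inv_smul_smul])
    rw [inv_mul_eq_one] at h2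
    exact h2.symm
  -- `N` has prime order
  have hcard : Nat.card N = Nat.card X := by
    refine Nat.card_congr (Equiv.ofBijective (fun a : N => a • x) ⟨?_, ?_⟩)
    · intro a b hab
      have hab' : (a : G) • x = (b : G) • x := hab
      have h1 := hreg ((b : G)⁻¹ * a) (N.mul_mem (N.inv_mem b.2) a.2) x (by
        rw [mul_smul, hab', inv_smul_smul])
      rw [inv_mul_eq_one] at h1
      exact Subtype.ext h1.symm
    · intro z
      exact MulAction.exists_smul_eq N x z
  have hfact : Fact (Nat.card X).Prime := ⟨hp⟩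
  have htop : Subgroup.zpowers (⟨n, hn⟩ : N) = ⊤ :=
    zpowers_eq_top_of_prime_card hcard (fun h => hn1 (congrArg Subtype.val h))
  apply hg
  apply FaithfulSMul.eq_of_smul_eq_smul (α := X)
  intro z
  obtain ⟨a, ha⟩ := MulAction.exists_smul_eq N x z
  have ha' : (a : G) • x = z := ha
  have h1 : a ∈ Subgroup.zpowers (⟨n, hn⟩ : N) := by
    rw [htop]
    exact Subgroup.mem_top a
  obtain ⟨k, hk⟩ := Subgroup.mem_zpowers_iff.1 h1
  have h2 : (a : G) = n ^ k := by
    rw [← hk]
    rfl
  have h3 : g * (a : G) = a * g := by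
    rw [h2]
    have h4 : Commute g n := by
      show g * n = n * g
      calc g * n = (g * n * g⁻¹) * g := by group
        _ = n * g := by rw [hcomm]
    exact h4.zpow_right k
  rw [one_smul, ← ha', smul_smul, h3, ← smul_smul, hx]

/-- one part which is not divisible by `m` -/
theorem dvd_of_part {M T R T' : Multiset ℕ} {m k : ℕ} (hM : M = T + R) (hk : k ∈ T)
    (h : ∀ j ∈ M.erase k, m ∣ j) (hT' : T' ≤ R) (hs : T.sum = T'.sum) : m ∣ k := by
  have h1 : M.erase k = T.erase k + R := by
    rw [hM, Multiset.erase_add_left_pos R hk]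
  have h2 : m ∣ T'.sum := by
    refine Multiset.dvd_sum fun j hj => h j ?_
    rw [h1]
    exact Multiset.mem_add.2 (Or.inr (Multiset.mem_of_le hT' hj))
  have h3 : m ∣ (T.erase k).sum := by
    refine Multiset.dvd_sum fun j hj => h j ?_
    rw [h1]
    exact Multiset.mem_add.2 (Or.inl hj)
  have h4 : T.sum = k + (T.erase k).sum := by
    rw [← Multiset.sum_cons, Multiset.cons_erase hk]
  rw [← hs, h4] at h2
  exact (Nat.dvd_add_left h3).1 h2

/-- exactly one part is not divisible by `m`, and it is odd or `r ≠ 2` -/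
theorem not_splitsN_of_mod {M : Multiset ℕ} {r m k : ℕ} (hk : k ∈ M) (h : ∀ j ∈ M.erase k, m ∣ j)
    (hmk : ¬ m ∣ k) (hodd : r = 2 → Odd k) : ¬ SplitsN r M := by
  rintro ⟨A, B, C, h0, ⟨a, ha, ha'⟩, ⟨b, hb, hb'⟩, -, hC, hC'⟩
  rw [Fin.sum_univ_three] at ha
  rw [Fin.sum_univ_two] at hb
  have hs : ∀ i j, (a i).sum = (a j).sum := fun i j => by
    have := ha' i j
    rwa [Multiset.map_id, Multiset.map_id] at this
  have hs' : ∀ i j, (b i).sum = (b j).sum := fun i j => by
    have := hb' i j
    rwa [Multiset.map_id, Multiset.map_id] at this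
  have hk' := hk
  rw [h0, Multiset.mem_add, Multiset.mem_add, ha, hb, Multiset.mem_add, Multiset.mem_add, Multiset.mem_add] at hk'
  rcases hk' with (((hk' | hk') | hk') | (hk' | hk')) | hk'
  · refine hmk (dvd_of_part (T := a 0) (R := a 1 + (a 2 + B + C)) (T' := a 1) ?_ hk' h
      (Multiset.le_add_right _ _) (hs 0 1))
    rw [h0, ha]
    abel
  · refine hmk (dvd_of_part (T := a 1) (R := a 0 + (a 2 + B + C)) (T' := a 0) ?_ hk' h
      (Multiset.le_add_right _ _) (hs 1 0))
    rw [h0, ha]
    abel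
  · refine hmk (dvd_of_part (T := a 2) (R := a 0 + (a 1 + B + C)) (T' := a 0) ?_ hk' h
      (Multiset.le_add_right _ _) (hs 2 0))
    rw [h0, ha]
    abel
  · refine hmk (dvd_of_part (T := b 0) (R := b 1 + (A + C)) (T' := b 1) ?_ hk' h
      (Multiset.le_add_right _ _) (hs' 0 1))
    rw [h0, hb]
    abel
  · refine hmk (dvd_of_part (T := b 1) (R := b 0 + (A + C)) (T' := b 0) ?_ hk' h
      (Multiset.le_add_right _ _) (hs' 1 0))
    rw [h0, hb]
    abel
  · by_cases hr : r = 2
    · exact (Nat.not_even_iff_odd.2 (hodd hr)) (hC k hk')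
    · rw [hC' hr] at hk'
      exact absurd hk' (Multiset.notMem_zero k)

/-- a permutation of an odd prime number of points, no nontrivial power of which fixes two points -/
theorem not_splitsN_of_few {X : Type*} [Fintype X] [DecidableEq X] (π : Equiv.Perm X)
    (hp : (Fintype.card X).Prime) (h2 : Fintype.card X ≠ 2) (hπ : π ≠ 1)
    (h : ∀ j : ℕ, π ^ j ≠ 1 → ∀ x y, (π ^ j) x = x → (π ^ j) y = y → x = y) (r : ℕ) :
    ¬ SplitsN r π.partition.parts := by
  have hodd : Odd (Fintype.card X) := hp.odd_of_ne_two h2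
  have hper : ∀ x : X, (π ^ Function.minimalPeriod π x) x = x := fun x =>
    (Pool.Agent.H89.FrobD.periodic_iff π _ x).1 (Function.isPeriodicPt_minimalPeriod π x)
  have hdvd : ∀ x : X, Function.minimalPeriod π x ∣ orderOf π := by
    intro x
    rw [← Function.isPeriodicPt_iff_minimalPeriod_dvd, Pool.Agent.H89.FrobD.periodic_iff, pow_orderOf_eq_one]
    rfl
  -- periods
  have hP : ∀ x : X, π x ≠ x → Function.minimalPeriod π x = orderOf π := by
    intro x hx
    refine Nat.dvd_antisymm (hdvd x) (orderOf_dvd_of_pow_eq_one ?_)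
    by_contra h1
    apply hx
    refine h _ h1 (π x) x ?_ (hper x)
    rw [← Equiv.Perm.mul_apply, ← pow_succ, pow_succ', Equiv.Perm.mul_apply, hper x]
  have hfix : ∀ x y : X, π x = x → π y = y → x = y := by
    intro x y hx hy
    exact h 1 (by rwa [pow_one]) x y (by rwa [pow_one]) (by rwa [pow_one])
  have hone : ∀ x : X, Function.minimalPeriod π x = 1 ↔ π x = x := fun x =>
    Function.minimalPeriod_eq_one_iff_isFixedPt
  obtain ⟨x₀, hx₀⟩ : ∃ x, π x ≠ x := by
    by_contra hcon
    push Not at hcon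
    exact hπ (Equiv.ext hcon)
  set k := orderOf π with hk
  have hk1 : k ≠ 1 := by
    intro h1
    have := hP x₀ hx₀
    rw [h1, hone] at this
    exact hx₀ this
  have hmem : ∀ d ∈ π.partition.parts, d = k ∨ d = 1 := by
    intro d hd
    have hd0 : 0 < d := π.partition.parts_pos hd
    have h3 := Pool.Agent.H89.FrobD.perm_count π d hd0
    have h4 : 0 < π.partition.parts.count d := Multiset.count_pos.2 hd
    have h5 : 0 < (Finset.univ.filter (fun x => Function.minimalPeriod π x = d)).card := by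
      rw [← h3]
      exact Nat.mul_pos hd0 h4
    obtain ⟨x, hx⟩ := Finset.card_pos.1 h5
    rw [Finset.mem_filter] at hx
    by_cases h6 : π x = x
    · right
      rw [← hx.2, hone]
      exact h6
    · left
      rw [← hx.2, hP x h6]
  have hc1 : π.partition.parts.count 1 ≤ 1 := by
    have h3 := Pool.Agent.H89.FrobD.perm_count π 1 one_pos
    rw [one_mul] at h3
    rw [h3, Finset.card_le_one]
    intro x hx y hy
    rw [Finset.mem_filter] at hx hy
    exact hfix x y ((hone x).1 hx.2) ((hone y).1 hy.2)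
  by_cases h1 : 1 ∈ π.partition.parts
  · refine not_splitsN_of_mod (m := k) h1 ?_ ?_ fun _ => odd_one
    · intro j hj
      rcases hmem j (Multiset.mem_of_mem_erase hj) with h3 | h3
      · rw [h3]
      · exfalso
        rw [h3] at hj
        have h4 : 0 < (π.partition.parts.erase 1).count 1 := Multiset.count_pos.2 hj
        rw [Multiset.count_erase_self] at h4
        omega
    · intro h3
      exact hk1 (Nat.dvd_one.1 h3)
  · have h3 : k ∣ Fintype.card X := by
      have h4 : k ∣ π.partition.parts.sum := by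
        refine Multiset.dvd_sum fun j hj => ?_
        rcases hmem j hj with h4 | h4
        · rw [h4]
        · rw [h4] at hj
          exact absurd hj h1
      rwa [π.partition.parts_sum] at h4
    have h4 : k = Fintype.card X := (hp.eq_one_or_self_of_dvd k h3).resolve_left hk1
    have h5 : k ∈ π.partition.parts := by
      rw [← hP x₀ hx₀]
      exact mem_parts π x₀
    refine not_splitsN_of_long h5 ?_ fun _ => by rw [h4]; exact hodd
    rw [π.partition.parts_sum, h4]
    have := hp.pos
    omega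

variable {L : Type} [Field L] [NumberField L] [IsGalois ℚ L]

/-- the number of the embeddings -/
theorem card_emb {K : Type} [Field K] [NumberField K] (σ₁ : K →ₐ[ℚ] L) :
    Nat.card (K →ₐ[ℚ] L) = Module.finrank ℚ K := by
  refine AlgHom.natCard_of_splits ℚ K L fun x => ?_
  rw [← minpoly.algHom_eq σ₁ σ₁.injective x]
  exact Normal.splits inferInstance (σ₁ x)

/-- FIELDS OF ODD PRIME DEGREE WITH A SOLVABLE GALOIS CLOSURE -/
theorem solv_lower {K : Type} [Field K] [NumberField K] (hp : (Module.finrank ℚ K).Prime)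
    (h2 : Module.finrank ℚ K ≠ 2) (σ₁ : K →ₐ[ℚ] L) (hgen : (⨆ τ : K →ₐ[ℚ] L, τ.fieldRange) = ⊤)
    (hsol : Group.IsSolvable Gal(L/ℚ)) :
    LowerDirichlet {p | FC K p} (1 - 1 / (Module.finrank ℚ L : ℝ)) := by
  classical
  have hcard : Nat.card Gal(L/ℚ) = Module.finrank ℚ L := IsGalois.card_aut_eq_finrank ℚ L
  have hX := card_emb (L := L) σ₁
  let _ : MulAction Gal(L/ℚ) (K →ₐ[ℚ] L) :=
    { smul := act
      one_smul := fun σ => Pool.Agent.H89.FrobD.act_one σ
      mul_smul := fun g h σ => Pool.Agent.H89.FrobD.act_mul g h σ }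
  have hfaith : FaithfulSMul Gal(L/ℚ) (K →ₐ[ℚ] L) := ⟨fun {g h} hgh =>
    H93FD.compPerm_injective hgen (Equiv.ext hgh)⟩
  have htr : MulAction.IsPretransitive Gal(L/ℚ) (K →ₐ[ℚ] L) :=
    ⟨fun σ τ => Pool.Agent.H89.FrobD.exists_gal σ τ⟩
  have hXp : (Nat.card (K →ₐ[ℚ] L)).Prime := by
    rw [hX]
    exact hp
  have hfix : ∀ g : Gal(L/ℚ), g ≠ 1 → ∀ σ τ : K →ₐ[ℚ] L, act g σ = σ → act g τ = τ → σ = τ :=
    fun g hg σ τ h3 h4 => fixed_unique hXp g hg σ τ h3 h4
  have h1 := abs_lower σ₁ {g : Gal(L/ℚ) | g ≠ 1} ?_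
  · refine h1.mono (fun _ _ h => h) ?_
    have h3 : ({g : Gal(L/ℚ) | g ≠ 1} : Set Gal(L/ℚ)).ncard + 1 = Module.finrank ℚ L := by
      have h4 : ({g : Gal(L/ℚ) | g ≠ 1} : Set Gal(L/ℚ)) = {1}ᶜ := by
        ext g
        simp
      rw [h4, ← hcard, ← Set.ncard_add_ncard_compl ({1} : Set Gal(L/ℚ)), Set.ncard_singleton, add_comm]
    have h4 : (0 : ℝ) < (Module.finrank ℚ L : ℝ) := by exact_mod_cast Module.finrank_pos
    rw [le_div_iff₀ h4, ← h3]
    rw [← h3] at h4
    push_cast at h4 ⊢
    have h5 : (1 : ℝ) / ((({g : Gal(L/ℚ) | g ≠ 1} : Set Gal(L/ℚ)).ncard : ℝ) + 1) *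
        ((({g : Gal(L/ℚ) | g ≠ 1} : Set Gal(L/ℚ)).ncard : ℝ) + 1) = 1 := by
      field_simp
    linarith
  · intro g hg
    refine ⟨inferInstance, inferInstance, actP K g, fun σ => rfl, fun r _ _ => ?_⟩
    have hpow : ∀ (j : ℕ) (σ : K →ₐ[ℚ] L), (actP K g ^ j) σ = act (g ^ j) σ := by
      intro j σ
      rw [← Equiv.Perm.iterate_eq_pow]
      exact Pool.Agent.H89.FrobD.act_iter g σ j
    have hinj : ∀ h : Gal(L/ℚ), (∀ σ : K →ₐ[ℚ] L, act h σ = σ) → h = 1 := by
      intro h hh
      exact H93FD.compPerm_injective hgen (Equiv.ext fun σ => hh σ)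
    refine not_splitsN_of_few (actP K g) ?_ ?_ ?_ ?_ r
    · rw [← Nat.card_eq_fintype_card]
      exact hXp
    · rw [← Nat.card_eq_fintype_card, hX]
      exact h2
    · intro h3
      refine hg (hinj g fun σ => ?_)
      have := congrArg (fun π : Equiv.Perm (K →ₐ[ℚ] L) => π σ) h3
      exact this
    · intro j hj σ τ h3 h4
      rw [hpow] at h3 h4
      refine hfix (g ^ j) ?_ σ τ h3 h4
      intro h5
      apply hj
      ext1 ρ
      rw [hpow, h5]
      rfl

end H10FG
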